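import Pool.Agent.Work.MP_8c8e41_lc.Transfer

/-!
The positive triples of the reduction form a valid family of groups: three variables each,
two of them share at most one variable.
-/

set_option autoImplicit false

namespace Pool.Agent.Work.MP_8c8e41_lc

/-- the three names of a triple are different -/
def Tri.Dist (t : Tri) : Prop := t.1 ≠ t.2.1 ∧ t.1 ≠ t.2.2 ∧ t.2.1 ≠ t.2.2

/-- the set of names of a triple -/
def grp (t : Tri) : Finset ℕ := {t.1, t.2.1, t.2.2}

lemma stageBPos_dist (L : List TGate) : ∀ t ∈ stageBPos L, Tri.Dist t := by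
  intro t ht
  rcases List.mem_append.mp ht with ht | ht
  · simp only [basePos, List.mem_cons, List.not_mem_nil, or_false] at ht
    rcases ht with rfl | rfl | rfl | rfl <;> simp [Tri.Dist]
  · obtain ⟨⟨⟨b, x, y, z⟩, m⟩, hm, ht⟩ := List.mem_flatMap.mp ht
    simp only [gatePos] at ht
    rcases List.mem_append.mp ht with ht | ht
    · simp only [List.mem_cons, List.not_mem_nil, or_false] at ht
      rcases ht with rfl | rfl | rfl <;> (simp only [Tri.Dist, valv]; omega)
    · cases b
      · simp only [Bool.false_eq_true, if_false, List.mem_cons, List.not_mem_nil, or_false] at ht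
        rcases ht with rfl | rfl | rfl | rfl | rfl <;> (simp only [Tri.Dist, valv, auxv]; omega)
      · simp only [if_true, List.mem_cons, List.not_mem_nil, or_false] at ht
        rcases ht with rfl | rfl | rfl | rfl | rfl <;> (simp only [Tri.Dist, valv, auxv]; omega)

/-- the names of a line of the `j`-th configuration -/
lemma cfgPos_dist {t : Tri} (j : ℕ) : ∀ s ∈ cfgPos t j, Tri.Dist s := by
  intro s hs
  simp only [cfgPos, List.mem_cons, List.not_mem_nil, or_false] at hs
  rcases hs with rfl | rfl | rfl | rfl | rfl | rfl | rfl | rfl | rfl <;>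
    (simp only [Tri.Dist, newv, oldv]; omega)

/-- sharing at most one name, in elementary form -/
def Share1 (s t : Tri) : Prop :=
  ∀ a b, a ∈ grp s → a ∈ grp t → b ∈ grp s → b ∈ grp t → a = b

lemma Share1.card {s t : Tri} (h : Share1 s t) : (grp s ∩ grp t).card ≤ 1 := by
  rw [Finset.card_le_one]
  intro a ha b hb
  rw [Finset.mem_inter] at ha hb
  exact h a b ha.1 ha.2 hb.1 hb.2

lemma cfgPos_pairwise {t : Tri} (ht : Tri.Dist t) (j : ℕ) : (cfgPos t j).Pairwise Share1 := by
  obtain ⟨h1, h2, h3⟩ := ht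
  simp only [cfgPos, List.pairwise_cons, List.mem_cons, List.not_mem_nil, or_false, Share1, grp,
    Finset.mem_insert, Finset.mem_singleton, newv, oldv, forall_eq_or_imp, forall_eq,
    List.Pairwise.nil, IsEmpty.forall_iff, implies_true, and_true]
  refine ⟨⟨?_, ?_, ?_, ?_, ?_, ?_, ?_, ?_⟩, ⟨?_, ?_, ?_, ?_, ?_, ?_, ?_⟩, ⟨?_, ?_, ?_, ?_, ?_, ?_⟩,
    ⟨?_, ?_, ?_, ?_, ?_⟩, ⟨?_, ?_, ?_, ?_⟩, ⟨?_, ?_, ?_⟩, ⟨?_, ?_⟩, ?_⟩ <;>
  · intro a b ha ha' hb hb'
    omega

/-- a line of a configuration contains at most one old name, and its other names are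
proper to the configuration -/
lemma cfgPos_names {t : Tri} {j : ℕ} {s : Tri} (hs : s ∈ cfgPos t j) {a : ℕ} (ha : a ∈ grp s) :
    a % 2 = 0 ∨ (a % 2 = 1 ∧ a / 14 = j) := by
  simp only [cfgPos, List.mem_cons, List.not_mem_nil, or_false] at hs
  rcases hs with rfl | rfl | rfl | rfl | rfl | rfl | rfl | rfl | rfl <;>
    (simp only [grp, Finset.mem_insert, Finset.mem_singleton, newv, oldv] at ha; omega)

lemma cfgPos_even {t : Tri} {j : ℕ} {s : Tri} (hs : s ∈ cfgPos t j) {a b : ℕ} (ha : a ∈ grp s)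
    (hb : b ∈ grp s) (ha2 : a % 2 = 0) (hb2 : b % 2 = 0) : a = b := by
  simp only [cfgPos, List.mem_cons, List.not_mem_nil, or_false] at hs
  rcases hs with rfl | rfl | rfl | rfl | rfl | rfl | rfl | rfl | rfl <;>
    (simp only [grp, Finset.mem_insert, Finset.mem_singleton, newv, oldv] at ha hb; omega)

lemma cfgPos_cross {t t' : Tri} {j j' : ℕ} (hj : j ≠ j') {s s' : Tri} (hs : s ∈ cfgPos t j)
    (hs' : s' ∈ cfgPos t' j') : Share1 s s' := by
  intro a b ha ha' hb hb'
  have a1 := cfgPos_names hs ha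
  have a2 := cfgPos_names hs' ha'
  have b1 := cfgPos_names hs hb
  have b2 := cfgPos_names hs' hb'
  have e1 : a % 2 = 0 := by omega
  have e2 : b % 2 = 0 := by omega
  exact cfgPos_even hs ha hb e1 e2

lemma zipIdx_pairwise {α : Type*} (l : List α) (k : ℕ) :
    (l.zipIdx k).Pairwise fun a b => a.2 < b.2 := by
  rw [List.pairwise_iff_getElem]
  intro i j hi hj hij
  simp only [List.getElem_zipIdx]
  omega

lemma pairwise_flatMap_of {α β : Type*} {l : List α} {f : α → List β} {R : β → β → Prop}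
    {S : α → α → Prop} (hl : l.Pairwise S) (h1 : ∀ a ∈ l, (f a).Pairwise R)
    (h2 : ∀ a ∈ l, ∀ b ∈ l, S a b → ∀ x ∈ f a, ∀ y ∈ f b, R x y) : (l.flatMap f).Pairwise R := by
  induction l with
  | nil => simp
  | cons a l ih =>
    rw [List.flatMap_cons, List.pairwise_append]
    rw [List.pairwise_cons] at hl
    refine ⟨h1 a (by simp), ih hl.2 (fun b hb => h1 b (by simp [hb]))
      (fun b hb c hc => h2 b (by simp [hb]) c (by simp [hc])), ?_⟩
    intro x hx y hy
    obtain ⟨b, hb, hy⟩ := List.mem_flatMap.mp hy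
    exact h2 a (by simp) b (by simp [hb]) (hl.1 b hb) x hx y hy

/-- Two of the groups share at most one variable (in particular they are different). -/
theorem finalPos_pairwise (L : List SGate) :
    (finalPos L).Pairwise fun s t => (grp s ∩ grp t).card ≤ 1 := by
  apply List.Pairwise.imp (R := Share1) (fun h => h.card)
  unfold finalPos stageCPos
  refine pairwise_flatMap_of (zipIdx_pairwise _ 0) ?_ ?_
  · rintro ⟨t, j⟩ htj
    have hm : t ∈ stageBPos (stageA L) := by
      rw [List.mem_zipIdx_iff_getElem?] at htj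
      exact List.mem_of_getElem? htj
    exact cfgPos_pairwise (stageBPos_dist _ t hm) j
  · rintro ⟨t, j⟩ - ⟨t', j'⟩ - hjj s hs s' hs'
    exact cfgPos_cross (by simp only at hjj; omega) hs hs'

/-- Every group has exactly three variables. -/
theorem finalPos_card (L : List SGate) : ∀ t ∈ finalPos L, (grp t).card = 3 := by
  intro t ht
  obtain ⟨⟨s, j⟩, hm, ht⟩ := List.mem_flatMap.mp ht
  obtain ⟨h1, h2, h3⟩ := cfgPos_dist j t ht
  exact Finset.card_eq_three.mpr ⟨_, _, _, h1, h2, h3, rfl⟩

end Pool.Agent.Work.MP_8c8e41_lc
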