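import Pool.Agent.Work.PolyTime.Pairs
import Pool.Agent.Work.MP_8c8e41_lc.Valid

/-!
`COL_k` is complete for the existential theory of the reals, for every `k ≥ 3`.
-/

set_option autoImplicit false
set_option linter.unusedSimpArgs false

namespace Pool.Agent.Work.MP_8c8e41_lc

open Pool.Agent.Work.PolyTime

/-- Instances with groups: the list of groups (each given by the list of its variables) and the
list of negative atoms. -/
abbrev Input : Type := List (List Name) × List (Name × Name × Name)

/-- Validity of an instance of `COL_k`: every group is listed without repetition and has at most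
`k` variables, the groups are different sets, two of them share at most one variable. -/
def WellFormed (k : ℕ) (I : Input) : Prop :=
  (∀ G ∈ I.1, G.Nodup ∧ G.length ≤ k) ∧
  I.1.Pairwise (fun G H => G.toFinset ≠ H.toFinset ∧ (G.toFinset ∩ H.toFinset).card ≤ 1)

/-- The points satisfy all positive atoms `COL(a,b,c)`, `a, b, c` in a common group, and
all negative atoms. -/
def IsYes (I : Input) : Prop :=
  ∃ p : Name → ℝ × ℝ,
    (∀ G ∈ I.1, ∀ a ∈ G, ∀ b ∈ G, ∀ c ∈ G, Collinear ℝ ({p a, p b, p c} : Set (ℝ × ℝ))) ∧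
    (∀ t ∈ I.2, ¬ Collinear ℝ ({p t.1, p t.2.1, p t.2.2} : Set (ℝ × ℝ)))

theorem collinear_iff_det2 (a b c : ℝ × ℝ) :
    Collinear ℝ ({a, b, c} : Set (ℝ × ℝ)) ↔ det2 a b c = 0 := by
  rw [collinear_iff_det]
  simp only [det3, lift, det2]
  constructor <;> intro h <;> linarith

/-! ### Membership -/

/-- The atoms of a group. -/
def posF (G : List Name) : List Formula :=
  G.flatMap fun a => G.flatMap fun b => G.map fun c => colF a b c

def inputF (I : Input) : Formula :=
  conj (I.1.flatMap posF ++ I.2.map fun t => Formula.not (colF t.1 t.2.1 t.2.2))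

theorem inputF_correct (I : Input) : IsYes I ↔ ∃ x : Name → ℝ, (inputF I).Holds x := by
  have key : ∀ x : Name → ℝ, (inputF I).Holds x ↔
      (∀ G ∈ I.1, ∀ a ∈ G, ∀ b ∈ G, ∀ c ∈ G,
        Collinear ℝ ({ptOf x a, ptOf x b, ptOf x c} : Set (ℝ × ℝ))) ∧
      (∀ t ∈ I.2, ¬ Collinear ℝ ({ptOf x t.1, ptOf x t.2.1, ptOf x t.2.2} : Set (ℝ × ℝ))) := by
    intro x
    simp only [inputF, conj_holds, List.mem_append, posF, List.mem_flatMap, List.mem_map,
      collinear_iff_det2]
    constructor
    · intro h
      refine ⟨fun G hG a ha b hb c hc => ?_, fun t ht => ?_⟩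
      · exact (colF_holds _ _ _ _).1 (h _ (Or.inl ⟨G, hG, a, ha, b, hb, c, hc, rfl⟩))
      · have := h _ (Or.inr ⟨t, ht, rfl⟩)
        simpa only [Formula.Holds, colF_holds] using this
    · rintro ⟨h1, h2⟩ φ (⟨G, hG, a, ha, b, hb, c, hc, rfl⟩ | ⟨t, ht, rfl⟩)
      · exact (colF_holds _ _ _ _).2 (h1 G hG a ha b hb c hc)
      · simpa only [Formula.Holds, colF_holds] using h2 t ht
  constructor
  · rintro ⟨p, hp⟩
    exact ⟨numOf p, (key _).2 (by rw [ptOf_numOf]; exact hp)⟩
  · rintro ⟨x, hx⟩
    exact ⟨ptOf x, (key _).1 hx⟩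

theorem inputF_ptime : PTime inputF := by
  unfold inputF posF
  refine PTime.conj (PTime.append (PTime.flatMap (by fun_prop) ?_) (PTime.map (by fun_prop) ?_))
  · refine PTime.flatMap (by fun_prop) (PTime.flatMap (by fun_prop) (PTime.map (by fun_prop) ?_))
    fun_prop
  · fun_prop

/-- Boolean version of validity. -/
def wfB (k : ℕ) (I : Input) : Bool :=
  (I.1.all fun G => pairwiseB (fun a b => !decide (a = b)) G && decide (G.length ≤ k)) &&
  pairwiseB (fun G H => (!((G.all fun a => memB a H) && (H.all fun a => memB a G))) &&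
    G.all (fun a => G.all fun b => (!memB a H) || ((!memB b H) || decide (a = b)))) I.1

theorem wfB_iff (k : ℕ) (I : Input) : wfB k I = true ↔ WellFormed k I := by
  have h1 : ∀ G : List Name, pairwiseB (fun a b => !decide (a = b)) G = true ↔ G.Nodup := by
    intro G
    rw [List.Nodup]
    exact pairwiseB_iff (by intro a b; simp)
  simp only [wfB, Bool.and_eq_true, WellFormed, List.all_eq_true, decide_eq_true_eq, h1]
  refine and_congr_right fun _ => ?_
  refine pairwiseB_iff ?_
  intro G H
  have hm : ∀ (a : Name) (l : List Name), memB a l = false ↔ a ∉ l := by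
    intro a l
    rw [← memB_iff, Bool.not_eq_true]
  simp only [Bool.and_eq_true, Bool.not_eq_true', List.all_eq_true, decide_eq_true_eq,
    Bool.or_eq_true, Bool.and_eq_false_iff, hm, memB_iff]
  refine and_congr ?_ ?_
  · rw [Ne, Finset.ext_iff]
    simp only [List.mem_toFinset, ← Bool.not_eq_true, List.all_eq_true, memB_iff]
    constructor
    · rintro (h | h) h'
      · exact h fun a ha => (h' a).1 ha
      · exact h fun a ha => (h' a).2 ha
    · intro h
      by_contra h'
      push Not at h'
      exact h fun a => ⟨h'.1 a, h'.2 a⟩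
  · rw [Finset.card_le_one]
    simp only [Finset.mem_inter, List.mem_toFinset]
    constructor
    · rintro h a ⟨ha, ha'⟩ b ⟨hb, hb'⟩
      rcases h a ha b hb with h1 | h1 | h1
      · exact absurd ha' h1
      · exact absurd hb' h1
      · exact h1
    · intro h a ha b hb
      by_cases ha' : a ∈ H
      · by_cases hb' : b ∈ H
        · exact Or.inr (Or.inr (h a ⟨ha, ha'⟩ b ⟨hb, hb'⟩))
        · exact Or.inr (Or.inl hb')
      · exact Or.inl ha'

theorem wfB_ptime (k : ℕ) : PTime (wfB k) := by
  unfold wfB
  refine PTime.and (PTime.all (by fun_prop) (PTime.and (PTime.pairwiseB (by fun_prop)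
    (by fun_prop)) (by fun_prop))) (PTime.pairwiseB (by fun_prop) ?_)
  exact PTime.and (PTime.not (PTime.and (PTime.all (by fun_prop) (by fun_prop))
    (PTime.all (by fun_prop) (by fun_prop)))) (PTime.all (by fun_prop)
    (PTime.all (by fun_prop) (by fun_prop)))

/-! ### Hardness -/

theorem gateA_ptime {α : Type} [Code α] {g : α → SGate} {m : α → ℕ} (hg : PTime g)
    (hm : PTime m) : PTime (fun x => gateA (g x) (m x)) := by
  unfold gateA shv midv; fun_prop

theorem stageA_ptime : PTime stageA := by
  unfold stageA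
  exact PTime.flatMap (PTime.zipIdx PTime.id) (gateA_ptime (by fun_prop) (by fun_prop))

theorem gatePos_ptime {α : Type} [Code α] {g : α → TGate} {m : α → ℕ} (hg : PTime g)
    (hm : PTime m) : PTime (fun x => gatePos (g x) (m x)) := by
  have h : PTime (fun x => [(6, 0, valv (g x).2.1), (6, 0, valv (g x).2.2.1),
      (6, 0, valv (g x).2.2.2)] ++ bif (g x).1 then
        [(valv (g x).2.2.1, 12, auxv (m x) 0), (6, 3, auxv (m x) 0),
          (9, valv (g x).2.1, auxv (m x) 1), (0, 3, auxv (m x) 1),
          (auxv (m x) 0, auxv (m x) 1, valv (g x).2.2.2)]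
      else
        [(3, valv (g x).2.1, auxv (m x) 0), (9, 0, auxv (m x) 0),
          (9, valv (g x).2.2.1, auxv (m x) 1),
          (0, 3, auxv (m x) 1), (auxv (m x) 0, auxv (m x) 1, valv (g x).2.2.2)]) := by
    unfold valv auxv; fun_prop
  refine h.code_congr (fun x => ?_)
  unfold gatePos
  cases (g x).1 <;> rfl

theorem gateNeg_ptime {α : Type} [Code α] {g : α → TGate} (hg : PTime g) :
    PTime (fun x => gateNeg (g x)) := by
  unfold gateNeg valv; fun_prop

theorem stageBPos_ptime {α : Type} [Code α] {L : α → List TGate} (hL : PTime L) :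
    PTime (fun x => stageBPos (L x)) := by
  unfold stageBPos
  exact PTime.append (PTime.const _) (PTime.flatMap (PTime.zipIdx hL)
    (gatePos_ptime (by fun_prop) (by fun_prop)))

theorem stageBNeg_ptime {α : Type} [Code α] {L : α → List TGate} (hL : PTime L) :
    PTime (fun x => stageBNeg (L x)) := by
  unfold stageBNeg
  refine PTime.append (PTime.const _) ?_
  exact PTime.flatMap (f := fun _ g => gateNeg g) hL (gateNeg_ptime (by fun_prop))

theorem stageCPos_ptime {α : Type} [Code α] {L : α → List Tri} (hL : PTime L) :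
    PTime (fun x => stageCPos (L x)) := by
  unfold stageCPos
  refine PTime.flatMap (PTime.zipIdx hL) ?_
  unfold cfgPos newv oldv
  fun_prop

theorem stageCNeg_ptime {α : Type} [Code α] {P N : α → List Tri} (hP : PTime P) (hN : PTime N) :
    PTime (fun x => stageCNeg (P x) (N x)) := by
  unfold stageCNeg
  refine PTime.append ?_ (PTime.flatMap (PTime.zipIdx hP) ?_)
  · exact PTime.map (f := fun _ t => oldTri t) hN (by unfold oldTri oldv; fun_prop)
  · unfold cfgNeg newv
    fun_prop

theorem finalPos_ptime : PTime finalPos := by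
  unfold finalPos
  exact stageCPos_ptime (stageBPos_ptime stageA_ptime)

theorem finalNeg_ptime : PTime finalNeg := by
  unfold finalNeg
  exact stageCNeg_ptime (stageBPos_ptime stageA_ptime) (stageBNeg_ptime stageA_ptime)

/-- The instance produced from a list of gates. -/
def mkInput (L : List (ℕ × ℕ × ℕ × ℕ)) : Input :=
  ((finalPos L).map fun t => [nm t.1, nm t.2.1, nm t.2.2],
    (finalNeg L).map fun t => (nm t.1, nm t.2.1, nm t.2.2))

theorem mkInput_ptime : PTime mkInput := by
  unfold mkInput
  refine PTime.prodMk (PTime.map finalPos_ptime ?_) (PTime.map finalNeg_ptime ?_)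
  · fun_prop
  · fun_prop

theorem toFinset_nm (t : Tri) :
    ([nm t.1, nm t.2.1, nm t.2.2] : List Name).toFinset = (grp t).map ⟨nm, nm_inj⟩ := by
  ext x
  simp [grp, eq_comm]

theorem mkInput_wf {k : ℕ} (hk : 3 ≤ k) (L : List (ℕ × ℕ × ℕ × ℕ)) :
    WellFormed k (mkInput L) := by
  constructor
  · intro G hG
    obtain ⟨t, ht, rfl⟩ := List.mem_map.1 hG
    have h := finalPos_card L t ht
    refine ⟨?_, by simpa using hk⟩
    obtain ⟨a, b, c⟩ := t
    have hab : a ≠ b := by
      rintro rfl
      have : (grp (a, a, c)).card ≤ 2 := by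
        simp only [grp, Finset.mem_insert, true_or, Finset.insert_eq_of_mem]
        exact Finset.card_le_two
      omega
    have hac : a ≠ c := by
      rintro rfl
      have : (grp (a, b, a)).card ≤ 2 := by
        have e : grp (a, b, a) = {a, b} := by
          ext x; simp [grp]; tauto
        rw [e]; exact Finset.card_le_two
      omega
    have hbc : b ≠ c := by
      rintro rfl
      have : (grp (a, b, b)).card ≤ 2 := by
        have e : grp (a, b, b) = {a, b} := by
          ext x; simp [grp]
        rw [e]; exact Finset.card_le_two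
      omega
    simp [nm_inj.eq_iff, hab, hac, hbc]
  · simp only [mkInput, List.pairwise_map, toFinset_nm]
    have h1 := finalPos_pairwise L
    have h2 : (finalPos L).Pairwise fun s t => (grp s).card = 3 ∧ (grp t).card = 3 := by
      rw [List.pairwise_iff_getElem]
      intro i j hi hj _
      exact ⟨finalPos_card L _ (List.getElem_mem hi), finalPos_card L _ (List.getElem_mem hj)⟩
    refine (h1.and h2).imp ?_
    rintro s t ⟨h3, h4, h5⟩
    rw [← Finset.map_inter, Finset.card_map]
    refine ⟨?_, h3⟩
    intro h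
    have h6 := Finset.map_injective _ h
    rw [h6, Finset.inter_self] at h3
    omega

theorem mkInput_yes (L : List (ℕ × ℕ × ℕ × ℕ)) :
    (∃ x : ℕ → ℝ, ∀ g ∈ L, NHolds x g) ↔ IsYes (mkInput L) := by
  have h0 : (∃ x : ℕ → ℝ, ∀ g ∈ L, NHolds x g) ↔ (∃ x : ℕ → ℝ, ∀ g ∈ L, SGate.Holds x g) :=
    Iff.rfl
  rw [h0, final_correct]
  constructor
  · rintro ⟨p, h1, h2⟩
    refine ⟨fun a => p a.length, ?_, ?_⟩
    · intro G hG a ha b hb c hc
      obtain ⟨t, ht, rfl⟩ := List.mem_map.1 hG
      refine (h1 t ht).subset ?_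
      have key : ∀ d ∈ [nm t.1, nm t.2.1, nm t.2.2],
          p d.length ∈ ({p t.1, p t.2.1, p t.2.2} : Set (ℝ × ℝ)) := by
        intro d hd
        simp only [List.mem_cons, List.not_mem_nil, or_false] at hd
        rcases hd with rfl | rfl | rfl <;> simp [nm_length]
      intro y hy
      simp only [Set.mem_insert_iff, Set.mem_singleton_iff] at hy
      rcases hy with rfl | rfl | rfl
      · exact key a ha
      · exact key b hb
      · exact key c hc
    · intro t ht
      obtain ⟨s, hs, rfl⟩ := List.mem_map.1 ht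
      simp only [nm_length]
      exact h2 s hs
  · rintro ⟨p, h1, h2⟩
    refine ⟨fun n => p (nm n), ?_, ?_⟩
    · intro t ht
      exact h1 [nm t.1, nm t.2.1, nm t.2.2] (List.mem_map.2 ⟨t, ht, rfl⟩) (nm t.1) (by simp)
        (nm t.2.1) (by simp) (nm t.2.2) (by simp)
    · intro t ht
      exact h2 (nm t.1, nm t.2.1, nm t.2.2) (List.mem_map.2 ⟨t, ht, rfl⟩)

/-- Completeness of `COL_k`. -/
theorem col_complete (k : ℕ) (hk : 3 ≤ k) :
    ExistsRComplete (problem (WellFormed k) IsYes) :=
  existsRComplete_of
    (reducible_to_etr (wfB_iff k) (wfB_ptime k) inputF_ptime (fun I _ => inputF_correct I))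
    (etr_reducible_to mkInput_ptime (mkInput_wf hk) mkInput_yes)

end Pool.Agent.Work.MP_8c8e41_lc
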