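import Mathlib

/-!
Geometry for MP_8c8e41_lc: homogeneous coordinates, the Desargues gadget,
and the arithmetic gadgets.
-/

set_option autoImplicit false

namespace Pool.Agent.Work.MP_8c8e41_lc

/-- Homogeneous vectors of the real projective plane. -/
abbrev V3 := ℝ × ℝ × ℝ

/-- The determinant of three vectors of `ℝ³`. -/
def det3 (p q r : V3) : ℝ :=
  p.1 * (q.2.1 * r.2.2 - q.2.2 * r.2.1) - p.2.1 * (q.1 * r.2.2 - q.2.2 * r.1)
    + p.2.2 * (q.1 * r.2.1 - q.2.1 * r.1)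

lemma det3_swap12 (p q r : V3) : det3 q p r = - det3 p q r := by
  simp only [det3]; ring

lemma det3_swap23 (p q r : V3) : det3 p r q = - det3 p q r := by
  simp only [det3]; ring

lemma det3_rot (p q r : V3) : det3 q r p = det3 p q r := by
  simp only [det3]; ring

lemma det3_self12 (p r : V3) : det3 p p r = 0 := by
  simp only [det3]; ring

lemma det3_self23 (p r : V3) : det3 r p p = 0 := by
  simp only [det3]; ring

lemma det3_self13 (p r : V3) : det3 p r p = 0 := by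
  simp only [det3]; ring

lemma det3_zero1 (q r : V3) : det3 0 q r = 0 := by
  simp [det3]

lemma det3_smul1 (c : ℝ) (p q r : V3) : det3 (c • p) q r = c * det3 p q r := by
  simp only [det3, Prod.smul_fst, Prod.smul_snd, smul_eq_mul]; ring

lemma det3_smul2 (c : ℝ) (p q r : V3) : det3 p (c • q) r = c * det3 p q r := by
  simp only [det3, Prod.smul_fst, Prod.smul_snd, smul_eq_mul]; ring

lemma det3_smul3 (c : ℝ) (p q r : V3) : det3 p q (c • r) = c * det3 p q r := by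
  simp only [det3, Prod.smul_fst, Prod.smul_snd, smul_eq_mul]; ring

/-- Cramer's rule. -/
lemma cramer (p q r b : V3) :
    (det3 p q r) • b = (det3 b q r) • p + (det3 p b r) • q + (det3 p q b) • r := by
  ext <;> simp only [det3, Prod.smul_fst, Prod.smul_snd, smul_eq_mul, Prod.fst_add,
    Prod.snd_add] <;> ring

/-- expansion in a basis -/
lemma exists_coords {p q r : V3} (h : det3 p q r ≠ 0) (b : V3) :
    ∃ x y z : ℝ, b = x • p + y • q + z • r ∧ x * det3 p q r = det3 b q r ∧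
      y * det3 p q r = det3 p b r ∧ z * det3 p q r = det3 p q b := by
  refine ⟨det3 b q r / det3 p q r, det3 p b r / det3 p q r, det3 p q b / det3 p q r, ?_, ?_, ?_, ?_⟩
  · have := cramer p q r b
    have h2 : b = (det3 p q r)⁻¹ • ((det3 p q r) • b) := by
      rw [smul_smul, inv_mul_cancel₀ h, one_smul]
    rw [this] at h2
    conv_lhs => rw [h2]
    simp only [smul_add, smul_smul, div_eq_inv_mul]
  · field_simp
  · field_simp
  · field_simp

/-- The intersection point of corresponding sides. -/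
lemma side_point {o a1 a2 b1 b2 p : V3} {x1 x2 s1 s2 : ℝ} (h : det3 o a1 a2 ≠ 0)
    (hx1 : x1 ≠ 0) (hx2 : x2 ≠ 0) (hs1 : s1 ≠ 0) (hs2 : s2 ≠ 0)
    (hb1 : b1 = x1 • (o + s1 • a1)) (hb2 : b2 = x2 • (o + s2 • a2))
    (h1 : det3 a1 a2 p = 0) (h2 : det3 b1 b2 p = 0) :
    ∃ g : ℝ, p = g • (s1 • a1 - s2 • a2) := by
  have h' : det3 o (s1 • a1) (s2 • a2) ≠ 0 := by
    rw [det3_smul2, det3_smul3]
    exact mul_ne_zero hs1 (mul_ne_zero hs2 h)
  obtain ⟨x, y, z, hp, -, -, -⟩ := exists_coords h' p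
  have hx : x = 0 := by
    have : det3 a1 a2 p = x * det3 o a1 a2 := by
      rw [hp]; simp only [det3, Prod.smul_fst, Prod.smul_snd, smul_eq_mul, Prod.fst_add,
        Prod.snd_add]; ring
    rw [this] at h1
    exact (mul_eq_zero.mp h1).resolve_right h
  subst hx
  have hyz : y + z = 0 := by
    have : det3 b1 b2 p = - (x1 * x2 * (y + z)) * det3 o (s1 • a1) (s2 • a2) := by
      rw [hp, hb1, hb2]; simp only [det3, Prod.smul_fst, Prod.smul_snd, smul_eq_mul, Prod.fst_add,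
        Prod.snd_add]; ring
    rw [this] at h2
    have h3 := (mul_eq_zero.mp h2).resolve_right h'
    have h4 : x1 * x2 * (y + z) = 0 := by linarith
    exact (mul_eq_zero.mp h4).resolve_left (mul_ne_zero hx1 hx2)
  refine ⟨y, ?_⟩
  have hz : z = -y := by linarith
  rw [hp, hz]
  ext <;> simp only [Prod.smul_fst, Prod.smul_snd, smul_eq_mul, Prod.fst_add,
        Prod.snd_add, Prod.fst_sub, Prod.snd_sub] <;> ring

/-- `b` on the line `oa`, different from both `o` and `a`. -/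
lemma ray_point {o a c b : V3} (h : det3 o a c ≠ 0) (hb : det3 o a b = 0)
    (hba : det3 b a c ≠ 0) (hbo : det3 b o c ≠ 0) :
    ∃ x s : ℝ, x ≠ 0 ∧ s ≠ 0 ∧ b = x • (o + s • a) := by
  obtain ⟨x, y, z, hp, hx, hy, hz⟩ := exists_coords h b
  have hz0 : z = 0 := by
    rw [hb] at hz
    exact (mul_eq_zero.mp hz).resolve_right h
  have hx0 : x ≠ 0 := by
    intro h0; rw [h0, zero_mul] at hx; exact hba hx.symm
  have hy0 : y ≠ 0 := by
    intro h0
    rw [h0, zero_mul] at hy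
    apply hbo
    rw [det3_swap12, ← hy, neg_zero]
  refine ⟨x, y / x, hx0, div_ne_zero hy0 hx0, ?_⟩
  rw [hp, hz0, smul_add, smul_smul, mul_div_cancel₀ _ hx0, zero_smul, add_zero]

/-- **Desargues gadget, soundness.** -/
theorem desargues_sound {o a1 a2 a3 b1 b2 b3 p12 p23 p13 : V3}
    (l1 : det3 o a1 b1 = 0) (l2 : det3 o a2 b2 = 0) (l3 : det3 o a3 b3 = 0)
    (l4 : det3 a1 a2 p12 = 0) (l5 : det3 b1 b2 p12 = 0)
    (l6 : det3 a2 a3 p23 = 0) (l7 : det3 b2 b3 p23 = 0)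
    (l8 : det3 a1 a3 p13 = 0) (l9 : det3 b1 b3 p13 = 0)
    (n1 : det3 o a1 a2 ≠ 0) (n2 : det3 o a2 a3 ≠ 0) (n3 : det3 o a1 a3 ≠ 0)
    (m1 : det3 b1 a1 a2 ≠ 0) (m2 : det3 b2 a2 a1 ≠ 0) (m3 : det3 b3 a3 a1 ≠ 0)
    (k1 : det3 b1 o a2 ≠ 0) (k2 : det3 b2 o a1 ≠ 0) (k3 : det3 b3 o a1 ≠ 0) :
    det3 p12 p23 p13 = 0 := by
  obtain ⟨x1, s1, hx1, hs1, hb1⟩ := ray_point n1 l1 m1 k1
  have n1' : det3 o a2 a1 ≠ 0 := by rw [det3_swap23]; exact neg_ne_zero.mpr n1
  have n3' : det3 o a3 a1 ≠ 0 := by rw [det3_swap23]; exact neg_ne_zero.mpr n3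
  obtain ⟨x2, s2, hx2, hs2, hb2⟩ := ray_point n1' l2 m2 k2
  obtain ⟨x3, s3, hx3, hs3, hb3⟩ := ray_point n3' l3 m3 k3
  obtain ⟨g12, h12⟩ := side_point n1 hx1 hx2 hs1 hs2 hb1 hb2 l4 l5
  obtain ⟨g23, h23⟩ := side_point n2 hx2 hx3 hs2 hs3 hb2 hb3 l6 l7
  obtain ⟨g13, h13⟩ := side_point n3 hx1 hx3 hs1 hs3 hb1 hb3 l8 l9
  rw [h12, h23, h13]
  simp only [det3, Prod.smul_fst, Prod.smul_snd, smul_eq_mul, Prod.fst_sub,
        Prod.snd_sub]
  ring

/-- The two vectors represent different projective points. -/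
def Indep (p q : V3) : Prop := ∃ r : V3, det3 p q r ≠ 0

lemma Indep.symm {p q : V3} (h : Indep p q) : Indep q p := by
  obtain ⟨r, hr⟩ := h
  exact ⟨r, by rw [det3_swap12]; exact neg_ne_zero.mpr hr⟩

lemma ne_zero_of_det3 {p q r : V3} (h : det3 p q r ≠ 0) : p ≠ 0 ∧ q ≠ 0 ∧ r ≠ 0 := by
  refine ⟨?_, ?_, ?_⟩
  · rintro rfl; exact h (det3_zero1 q r)
  · rintro rfl; apply h; rw [← det3_rot]; exact det3_zero1 _ _
  · rintro rfl; apply h; rw [← det3_rot, ← det3_rot]; exact det3_zero1 _ _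

/-- **Desargues gadget, completeness.** -/
theorem desargues_complete {p12 p23 p13 : V3} (h : det3 p12 p23 p13 = 0)
    (i1 : Indep p12 p23) (i2 : Indep p12 p13) (i3 : Indep p23 p13) :
    ∃ o a1 a2 a3 b1 b2 b3 : V3,
      (det3 o a1 b1 = 0 ∧ det3 o a2 b2 = 0 ∧ det3 o a3 b3 = 0 ∧
       det3 a1 a2 p12 = 0 ∧ det3 b1 b2 p12 = 0 ∧
       det3 a2 a3 p23 = 0 ∧ det3 b2 b3 p23 = 0 ∧
       det3 a1 a3 p13 = 0 ∧ det3 b1 b3 p13 = 0) ∧
      (det3 o a1 a2 ≠ 0 ∧ det3 o a2 a3 ≠ 0 ∧ det3 o a1 a3 ≠ 0 ∧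
       det3 b1 a1 a2 ≠ 0 ∧ det3 b2 a2 a1 ≠ 0 ∧ det3 b3 a3 a1 ≠ 0 ∧
       det3 b1 o a2 ≠ 0 ∧ det3 b2 o a1 ≠ 0 ∧ det3 b3 o a1 ≠ 0) := by
  obtain ⟨v, hv⟩ := i1
  obtain ⟨x, y, z, hp, -, -, hz⟩ := exists_coords hv p13
  have hz0 : z = 0 := by
    rw [h] at hz; exact (mul_eq_zero.mp hz).resolve_right hv
  subst hz0
  rw [zero_smul, add_zero] at hp
  have hx : x ≠ 0 := by
    rintro rfl
    obtain ⟨r, hr⟩ := i3
    apply hr
    rw [hp, zero_smul, zero_add, det3_smul2, det3_self12, mul_zero]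
  have hy : y ≠ 0 := by
    rintro rfl
    obtain ⟨r, hr⟩ := i2
    apply hr
    rw [hp, zero_smul, add_zero, det3_smul2, det3_self12, mul_zero]
  -- a' = x • p12, b' = y • p23
  have hD : x * (y * det3 p12 p23 v) ≠ 0 := mul_ne_zero hx (mul_ne_zero hy hv)
  refine ⟨v + y • p23, v, v - x • p12, v - x • p12 - y • p23,
    v + (v + y • p23), v - x • p12 + (v + y • p23), v - x • p12 - y • p23 + (v + y • p23),
    ⟨?_, ?_, ?_, ?_, ?_, ?_, ?_, ?_, ?_⟩, ⟨?_, ?_, ?_, ?_, ?_, ?_, ?_, ?_, ?_⟩⟩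
  · simp only [det3, Prod.smul_fst, Prod.smul_snd, smul_eq_mul, Prod.fst_sub, Prod.snd_sub,
      Prod.fst_add, Prod.snd_add]; ring
  · simp only [det3, Prod.smul_fst, Prod.smul_snd, smul_eq_mul, Prod.fst_sub, Prod.snd_sub,
      Prod.fst_add, Prod.snd_add]; ring
  · simp only [det3, Prod.smul_fst, Prod.smul_snd, smul_eq_mul, Prod.fst_sub, Prod.snd_sub,
      Prod.fst_add, Prod.snd_add]; ring
  · simp only [det3, Prod.smul_fst, Prod.smul_snd, smul_eq_mul, Prod.fst_sub, Prod.snd_sub,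
      Prod.fst_add, Prod.snd_add]; ring
  · simp only [det3, Prod.smul_fst, Prod.smul_snd, smul_eq_mul, Prod.fst_sub, Prod.snd_sub,
      Prod.fst_add, Prod.snd_add]; ring
  · simp only [det3, Prod.smul_fst, Prod.smul_snd, smul_eq_mul, Prod.fst_sub, Prod.snd_sub,
      Prod.fst_add, Prod.snd_add]; ring
  · simp only [det3, Prod.smul_fst, Prod.smul_snd, smul_eq_mul, Prod.fst_sub, Prod.snd_sub,
      Prod.fst_add, Prod.snd_add]; ring
  · rw [hp]; simp only [det3, Prod.smul_fst, Prod.smul_snd, smul_eq_mul, Prod.fst_sub, Prod.snd_sub,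
      Prod.fst_add, Prod.snd_add]; ring
  · rw [hp]; simp only [det3, Prod.smul_fst, Prod.smul_snd, smul_eq_mul, Prod.fst_sub, Prod.snd_sub,
      Prod.fst_add, Prod.snd_add]; ring
  all_goals
    intro h0
    apply hD
    simp only [det3, Prod.smul_fst, Prod.smul_snd, smul_eq_mul, Prod.fst_sub, Prod.snd_sub,
      Prod.fst_add, Prod.snd_add] at h0 ⊢
    first
    | linear_combination h0
    | linear_combination -h0
    | linear_combination (1/2) * h0
    | linear_combination -(1/2) * h0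

end Pool.Agent.Work.MP_8c8e41_lc
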