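import Pool.Agent.Work.MP_8c8e41_lc.StageB2

/-!
Stage A: offset all variables by a common large number, so that all values are nonzero.
-/

set_option autoImplicit false

namespace Pool.Agent.Work.MP_8c8e41_lc

/-- source gates: kind `0`: `x_i = 1`; kind `1`: `x_i + x_j = x_k`; every other kind:
`x_i * x_j = x_k`. -/
abbrev SGate := ℕ × ℕ × ℕ × ℕ

def SGate.Holds (x : ℕ → ℝ) (g : SGate) : Prop :=
  if g.1 = 0 then x g.2.1 = 1
  else if g.1 = 1 then x g.2.1 + x g.2.2.1 = x g.2.2.2
  else x g.2.1 * x g.2.2.1 = x g.2.2.2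

/-- shifted variable -/
def shv (i : ℕ) : ℕ := 2 * i + 2

/-- intermediate variable `r < 8` of the `m`-th gate -/
def midv (m r : ℕ) : ℕ := 16 * m + 2 * r + 3

def gateA (g : SGate) (m : ℕ) : List TGate :=
  if g.1 = 0 then [(false, 1, 0, shv g.2.1)]
  else if g.1 = 1 then
    [(false, shv g.2.1, shv g.2.2.1, midv m 0), (false, shv g.2.2.2, 1, midv m 0)]
  else
    [(true, shv g.2.1, shv g.2.2.1, midv m 0), (true, 1, 1, midv m 1),
     (true, 1, shv g.2.2.1, midv m 2), (true, 1, shv g.2.1, midv m 3),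
     (false, midv m 0, midv m 1, midv m 4), (false, midv m 4, 1, midv m 5),
     (false, midv m 2, midv m 3, midv m 6), (false, midv m 6, shv g.2.2.2, midv m 5)]

def stageA (L : List SGate) : List TGate := L.zipIdx.flatMap fun gm => gateA gm.1 gm.2

theorem stageA_sound {L : List SGate} {v : ℕ → ℝ} (h0 : v 0 = 1) (h : ∀ g ∈ stageA L, g.Holds v) :
    ∃ x : ℕ → ℝ, ∀ g ∈ L, g.Holds x := by
  refine ⟨fun i => v (shv i) - v 1, ?_⟩
  intro g hg
  obtain ⟨m, hm, rfl⟩ := List.getElem_of_mem hg
  have hmem : (L[m], m) ∈ L.zipIdx := by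
    rw [List.mem_zipIdx_iff_getElem?]
    simp [hm]
  have hp : ∀ s ∈ gateA L[m] m, s.Holds v := fun s hs =>
    h s (List.mem_flatMap.mpr ⟨_, hmem, hs⟩)
  generalize L[m] = g at *
  obtain ⟨k, i, j, l⟩ := g
  by_cases hk0 : k = 0
  · subst hk0
    simp only [gateA, if_true, List.mem_cons, List.not_mem_nil, or_false, forall_eq,
      TGate.Holds, Bool.false_eq_true, if_false, h0] at hp
    simp only [SGate.Holds, if_true]
    linarith
  · by_cases hk1 : k = 1
    · subst hk1
      simp only [gateA, one_ne_zero, if_false, if_true, List.mem_cons, List.not_mem_nil, or_false,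
        forall_eq_or_imp, forall_eq, TGate.Holds, Bool.false_eq_true] at hp
      obtain ⟨l1, l2⟩ := hp
      simp only [SGate.Holds, if_true, one_ne_zero, if_false]
      linarith
    · simp only [gateA, hk0, hk1, if_false, if_true, List.mem_cons, List.not_mem_nil, or_false,
        forall_eq_or_imp, forall_eq, TGate.Holds, Bool.false_eq_true] at hp
      obtain ⟨l1, l2, l3, l4, l5, l6, l7, l8⟩ := hp
      simp only [SGate.Holds, hk0, hk1, if_false]
      linear_combination l1 + l2 - l3 - l4 + l5 + l6 - l7 - l8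

/-- the intermediate values -/
noncomputable def midVal (x : ℕ → ℝ) (t : ℝ) (g : SGate) (r : ℕ) : ℝ :=
  if g.1 = 0 then 1
  else if g.1 = 1 then (x g.2.1 + t) + (x g.2.2.1 + t)
  else if r = 0 then (x g.2.1 + t) * (x g.2.2.1 + t)
  else if r = 1 then t * t
  else if r = 2 then t * (x g.2.2.1 + t)
  else if r = 3 then t * (x g.2.1 + t)
  else if r = 4 then (x g.2.1 + t) * (x g.2.2.1 + t) + t * t
  else if r = 5 then (x g.2.1 + t) * (x g.2.2.1 + t) + t * t + t
  else t * (x g.2.2.1 + t) + t * (x g.2.1 + t)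

noncomputable def valA (x : ℕ → ℝ) (t : ℝ) (L : List SGate) (u : ℕ) : ℝ :=
  if u = 0 then 1 else if u = 1 then t
  else if u % 2 = 0 then x (u / 2 - 1) + t
  else midVal x t (L.getD ((u - 3) / 16) (0, 0, 0, 0)) ((u - 3) / 2 % 8)

/-- only finitely many variables occur; outside them the solution is set to `0` -/
lemma exists_bounded {L : List SGate} {x : ℕ → ℝ} (h : ∀ g ∈ L, g.Holds x) :
    ∃ (y : ℕ → ℝ) (B : ℝ), (∀ g ∈ L, g.Holds y) ∧ ∀ i, |y i| ≤ B := by
  classical
  let S : Finset ℕ := L.toFinset.biUnion fun g => {g.2.1, g.2.2.1, g.2.2.2}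
  refine ⟨fun i => if i ∈ S then x i else 0, ∑ i ∈ S, |x i|, ?_, ?_⟩
  · intro g hg
    have h1 : g.2.1 ∈ S := Finset.mem_biUnion.mpr ⟨g, by simpa using hg, by simp⟩
    have h2 : g.2.2.1 ∈ S := Finset.mem_biUnion.mpr ⟨g, by simpa using hg, by simp⟩
    have h3 : g.2.2.2 ∈ S := Finset.mem_biUnion.mpr ⟨g, by simpa using hg, by simp⟩
    have := h g hg
    simp only [SGate.Holds] at this ⊢
    simp only [h1, h2, h3, if_true]
    exact this
  · intro i
    by_cases hi : i ∈ S
    · simp only [hi, if_true]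
      exact Finset.single_le_sum (f := fun i => |x i|) (fun j _ => abs_nonneg _) hi
    · simp only [hi, if_false, abs_zero]
      exact Finset.sum_nonneg fun j _ => abs_nonneg _

theorem stageA_complete {L : List SGate} {x : ℕ → ℝ} (h : ∀ g ∈ L, g.Holds x) :
    ∃ v : ℕ → ℝ, v 0 = 1 ∧ (∀ u, v u ≠ 0) ∧ ∀ g ∈ stageA L, g.Holds v := by
  obtain ⟨y, B, hy, hB⟩ := exists_bounded h
  have hB0 : 0 ≤ B := (abs_nonneg _).trans (hB 0)
  obtain ⟨t, ht⟩ : ∃ t : ℝ, t = B + 1 := ⟨_, rfl⟩
  have ht0 : 0 < t := by linarith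
  have hyt : ∀ i, 0 < y i + t := by
    intro i
    have := (abs_le.mp (hB i)).1
    linarith
  have v1 : valA y t L 1 = t := by simp [valA]
  have v0 : valA y t L 0 = 1 := by simp [valA]
  have vs : ∀ i, valA y t L (shv i) = y i + t := by
    intro i
    have h1 : 2 * i + 2 ≠ 0 := by omega
    have h2 : 2 * i + 2 ≠ 1 := by omega
    have h3 : (2 * i + 2) % 2 = 0 := by omega
    have h4 : (2 * i + 2) / 2 - 1 = i := by omega
    simp only [valA, shv, h1, h2, h3, h4, if_false, if_true]
  have vm : ∀ m r, r < 8 → valA y t L (midv m r) = midVal y t (L.getD m (0, 0, 0, 0)) r := by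
    intro m r hr
    have h1 : 16 * m + 2 * r + 3 ≠ 0 := by omega
    have h2 : 16 * m + 2 * r + 3 ≠ 1 := by omega
    have h3 : ¬ (16 * m + 2 * r + 3) % 2 = 0 := by omega
    have h4 : (16 * m + 2 * r + 3 - 3) / 16 = m := by omega
    have h5 : (16 * m + 2 * r + 3 - 3) / 2 % 8 = r := by omega
    simp only [valA, midv, h1, h2, h3, h4, h5, if_false]
  have hmid : ∀ g : SGate, ∀ r, 0 < midVal y t g r := by
    intro g r
    have a1 := hyt g.2.1
    have a2 := hyt g.2.2.1
    simp only [midVal]
    repeat' split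
    all_goals positivity
  refine ⟨valA y t L, v0, ?_, ?_⟩
  · intro u
    apply ne_of_gt
    simp only [valA]
    split
    · norm_num
    · split
      · exact ht0
      · split
        · exact hyt _
        · exact hmid _ _
  · intro s hs
    obtain ⟨⟨g, m⟩, hm, hs⟩ := List.mem_flatMap.mp hs
    rw [List.mem_zipIdx_iff_getElem?] at hm
    simp only at hm hs
    obtain ⟨hj, hg⟩ := List.getElem?_eq_some_iff.mp hm
    have hget : L.getD m (0, 0, 0, 0) = g := by
      rw [List.getD_eq_getElem?_getD, hm]; rfl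
    have hy' := hy g (hg ▸ List.getElem_mem hj)
    obtain ⟨k, i, j, l⟩ := g
    by_cases hk0 : k = 0
    · subst hk0
      simp only [SGate.Holds, if_true] at hy'
      simp only [gateA, if_true, List.mem_cons, List.not_mem_nil, or_false] at hs
      subst hs
      simp only [TGate.Holds, Bool.false_eq_true, if_false, v0, v1, vs, hy']
      ring
    · by_cases hk1 : k = 1
      · subst hk1
        simp only [SGate.Holds, one_ne_zero, if_false, if_true] at hy'
        simp only [gateA, one_ne_zero, if_false, if_true, List.mem_cons, List.not_mem_nil,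
          or_false] at hs
        rcases hs with rfl | rfl
        · simp only [TGate.Holds, Bool.false_eq_true, if_false, vs, vm m 0 (by norm_num), hget,
            midVal, one_ne_zero, if_true]
        · simp only [TGate.Holds, Bool.false_eq_true, if_false, vs, v1, vm m 0 (by norm_num), hget,
            midVal, one_ne_zero, if_true]
          linarith
      · simp only [SGate.Holds, hk0, hk1, if_false] at hy'
        simp only [gateA, hk0, hk1, if_false, List.mem_cons, List.not_mem_nil, or_false] at hs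
        rcases hs with rfl | rfl | rfl | rfl | rfl | rfl | rfl | rfl <;>
          simp only [TGate.Holds, Bool.false_eq_true, if_false, if_true, vs, v1,
            vm m 0 (by norm_num), vm m 1 (by norm_num), vm m 2 (by norm_num),
            vm m 3 (by norm_num), vm m 4 (by norm_num), vm m 5 (by norm_num),
            vm m 6 (by norm_num), hget, midVal, hk0, hk1, reduceIte] <;>
          norm_num <;> nlinarith [hy']

/-- **Stages A and B together.** -/
theorem stageAB_complete {L : List SGate} {x : ℕ → ℝ} (h : ∀ g ∈ L, g.Holds x) :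
    ∃ p : ℕ → V3, (∀ n, p n ≠ 0) ∧ (∀ t ∈ stageBPos (stageA L), DetZ p t ∧ Indep3 p t) ∧
      (∀ t ∈ stageBNeg (stageA L), ¬ DetZ p t) := by
  obtain ⟨v, h0, h1, h2⟩ := stageA_complete h
  exact stageB_complete h0 h1 h2

theorem stageAB_sound {L : List SGate} {p : ℕ → V3} (h0 : ∀ n, p n ≠ 0)
    (hpos : ∀ t ∈ stageBPos (stageA L), DetZ p t) (hneg : ∀ t ∈ stageBNeg (stageA L), ¬ DetZ p t) :
    ∃ x : ℕ → ℝ, ∀ g ∈ L, g.Holds x := by
  obtain ⟨v, h0, h1⟩ := stageB_sound h0 hpos hneg
  exact stageA_sound h0 h1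

end Pool.Agent.Work.MP_8c8e41_lc
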