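import Pool.Agent.Work.MP_8c8e41_lc.StageC

/-!
Stage B: arithmetic on non-zero reals by collinear triples of distinct points.
-/

set_option autoImplicit false

namespace Pool.Agent.Work.MP_8c8e41_lc

/-- arithmetic gates: `(false, x, y, z)` is `x + y = z`, `(true, x, y, z)` is `x * y = z`.
Variable `0` has the value `1`. -/
abbrev TGate := Bool × ℕ × ℕ × ℕ

def TGate.Holds (v : ℕ → ℝ) (g : TGate) : Prop :=
  if g.1 then v g.2.1 * v g.2.2.1 = v g.2.2.2 else v g.2.1 + v g.2.2.1 = v g.2.2.2

/-- name of the point of the value variable `u` -/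
def valv (u : ℕ) : ℕ := 3 * u + 1

/-- names of the two auxiliary points of the `m`-th gate -/
def auxv (m r : ℕ) : ℕ := 6 * m + 3 * r + 2

/-- base points: `0 = X_∞`, `3 = Y_∞`, `6 = O`, `9 = (0,1)`, `12 = ` direction of slope `-1`,
`1 = valv 0 = (1,0)` -/
def basePos : List Tri := [(6, 0, 1), (6, 3, 9), (1, 9, 12), (0, 3, 12)]

def baseNeg : List Tri := [(0, 3, 6), (1, 3, 6), (1, 0, 3), (9, 0, 6), (9, 0, 3)]

def gatePos (g : TGate) (m : ℕ) : List Tri :=
  [(6, 0, valv g.2.1), (6, 0, valv g.2.2.1), (6, 0, valv g.2.2.2)] ++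
  if g.1 then
    [(valv g.2.2.1, 12, auxv m 0), (6, 3, auxv m 0), (9, valv g.2.1, auxv m 1),
     (0, 3, auxv m 1), (auxv m 0, auxv m 1, valv g.2.2.2)]
  else
    [(3, valv g.2.1, auxv m 0), (9, 0, auxv m 0), (9, valv g.2.2.1, auxv m 1),
     (0, 3, auxv m 1), (auxv m 0, auxv m 1, valv g.2.2.2)]

def gateNeg (g : TGate) : List Tri :=
  [(valv g.2.1, 0, 3), (valv g.2.2.1, 0, 3), (valv g.2.2.2, 0, 3)]

def stageBPos (L : List TGate) : List Tri := basePos ++ L.zipIdx.flatMap fun gm => gatePos gm.1 gm.2

def stageBNeg (L : List TGate) : List Tri := baseNeg ++ L.flatMap gateNeg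

/-! ### completeness -/

/-- auxiliary points of a gate, for given values -/
noncomputable def auxPt (v : ℕ → ℝ) (g : TGate) (r : ℕ) : V3 :=
  if g.1 then
    (if r = 0 then (0, v g.2.2.1, 1) else (v g.2.1, -1, 0))
  else
    (if r = 0 then (v g.2.1, 1, 1) else (v g.2.2.1, -1, 0))

noncomputable def basePt (b : ℕ) : V3 :=
  if b = 0 then (1, 0, 0) else if b = 1 then (0, 1, 0) else if b = 2 then (0, 0, 1)
  else if b = 3 then (0, 1, 1) else (1, -1, 0)

noncomputable def ptB (v : ℕ → ℝ) (L : List TGate) (n : ℕ) : V3 :=
  if n % 3 = 0 then basePt (n / 3)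
  else if n % 3 = 1 then (v (n / 3), 0, 1)
  else auxPt v (L.getD (n / 6) (false, 0, 0, 0)) (n / 3 % 2)

lemma ptB_val (v : ℕ → ℝ) (L : List TGate) (u : ℕ) : ptB v L (valv u) = (v u, 0, 1) := by
  have h1 : (3 * u + 1) % 3 = 1 := by omega
  have h2 : (3 * u + 1) / 3 = u := by omega
  simp only [ptB, valv, h1, h2, one_ne_zero, if_false, if_true]

lemma ptB_aux (v : ℕ → ℝ) (L : List TGate) (m r : ℕ) (hm : m < L.length) (hr : r < 2) :
    ptB v L (auxv m r) = auxPt v L[m] r := by
  have h1 : (6 * m + 3 * r + 2) % 3 = 2 := by omega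
  have h2 : (6 * m + 3 * r + 2) / 6 = m := by omega
  have h3 : (6 * m + 3 * r + 2) / 3 % 2 = r := by omega
  simp only [ptB, auxv, h1, h2, h3]
  simp [hm]

lemma indep_of {p q : V3} (r : V3) (h : det3 p q r ≠ 0) : Indep p q := ⟨r, h⟩

lemma indep_xy {p q : V3} (h : p.1 * q.2.1 - p.2.1 * q.1 ≠ 0) : Indep p q :=
  ⟨(0, 0, 1), by simpa [det3] using fun h0 => h (by linarith)⟩

lemma indep_xz {p q : V3} (h : p.1 * q.2.2 - p.2.2 * q.1 ≠ 0) : Indep p q :=
  ⟨(0, 1, 0), by simp only [det3]; intro h0; apply h; linarith⟩

lemma indep_yz {p q : V3} (h : p.2.1 * q.2.2 - p.2.2 * q.2.1 ≠ 0) : Indep p q :=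
  ⟨(1, 0, 0), by simp only [det3]; intro h0; apply h; linarith⟩

theorem stageB_complete {L : List TGate} {v : ℕ → ℝ} (hv0 : v 0 = 1) (hv : ∀ u, v u ≠ 0)
    (hL : ∀ g ∈ L, g.Holds v) :
    ∃ p : ℕ → V3, (∀ n, p n ≠ 0) ∧ (∀ t ∈ stageBPos L, DetZ p t ∧ Indep3 p t) ∧
      (∀ t ∈ stageBNeg L, ¬ DetZ p t) := by
  refine ⟨ptB v L, ?_, ?_, ?_⟩
  · intro n
    simp only [ptB]
    split
    · simp only [basePt]
      repeat' split
      all_goals simp [Prod.ext_iff]
    · split
      · simp [Prod.ext_iff]
      · simp only [auxPt]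
        repeat' split
        all_goals simp [Prod.ext_iff]
  · have b0 : ptB v L 0 = (1, 0, 0) := by simp [ptB, basePt]
    have b3 : ptB v L 3 = (0, 1, 0) := by simp [ptB, basePt]
    have b6 : ptB v L 6 = (0, 0, 1) := by simp [ptB, basePt]
    have b9 : ptB v L 9 = (0, 1, 1) := by simp [ptB, basePt]
    have b12 : ptB v L 12 = (1, -1, 0) := by simp [ptB, basePt]
    have b1 : ptB v L 1 = (1, 0, 1) := by simp [ptB, hv0]
    intro t ht
    rcases List.mem_append.mp ht with ht | ht
    · simp only [basePos, List.mem_cons, List.not_mem_nil, or_false] at ht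
      rcases ht with rfl | rfl | rfl | rfl
      · refine ⟨by simp [DetZ, b0, b6, b1, det3], ?_, ?_, ?_⟩ <;> simp only [b0, b6, b1]
        · exact indep_xz (by norm_num)
        · exact indep_xz (by norm_num)
        · exact indep_xz (by norm_num)
      · refine ⟨by simp [DetZ, b3, b6, b9, det3], ?_, ?_, ?_⟩ <;> simp only [b3, b6, b9]
        · exact indep_yz (by norm_num)
        · exact indep_yz (by norm_num)
        · exact indep_yz (by norm_num)
      · refine ⟨by simp [DetZ, b1, b9, b12, det3], ?_, ?_, ?_⟩ <;> simp only [b1, b9, b12]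
        · exact indep_xy (by norm_num)
        · exact indep_xy (by norm_num)
        · exact indep_xy (by norm_num)
      · refine ⟨by simp [DetZ, b0, b3, b12, det3], ?_, ?_, ?_⟩ <;> simp only [b0, b3, b12]
        · exact indep_xy (by norm_num)
        · exact indep_xy (by norm_num)
        · exact indep_xy (by norm_num)
    · obtain ⟨⟨g, m⟩, hm, ht⟩ := List.mem_flatMap.mp ht
      rw [List.mem_zipIdx_iff_getElem?] at hm
      simp only at hm ht
      obtain ⟨hj, hs⟩ := List.getElem?_eq_some_iff.mp hm
      subst hs
      have hg := hL _ (List.getElem_mem hj)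
      have a0 := ptB_aux v L m 0 hj (by norm_num)
      have a1 := ptB_aux v L m 1 hj (by norm_num)
      have axis : ∀ u, DetZ (ptB v L) (6, 0, valv u) ∧ Indep3 (ptB v L) (6, 0, valv u) := by
        intro u
        refine ⟨by simp [DetZ, b0, b6, ptB_val, det3], ?_, ?_, ?_⟩ <;> simp only [b0, b6, ptB_val]
        · exact indep_xz (by norm_num)
        · exact indep_xz (by simpa using hv u)
        · exact indep_xz (by norm_num)
      generalize L[m] = g at *
      obtain ⟨k, x, y, z⟩ := g
      have hx := hv x
      have hy := hv y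
      have hz := hv z
      rcases List.mem_append.mp ht with ht | ht
      · simp only [List.mem_cons, List.not_mem_nil, or_false] at ht
        rcases ht with rfl | rfl | rfl <;> exact axis _
      · cases k
        · simp only [TGate.Holds, Bool.false_eq_true, if_false] at hg
          simp only [auxPt, Bool.false_eq_true, if_false, if_true, one_ne_zero] at a0 a1
          simp only [Bool.false_eq_true, if_false, List.mem_cons, List.not_mem_nil, or_false] at ht
          rcases ht with rfl | rfl | rfl | rfl | rfl
          · refine ⟨by simp [DetZ, b3, a0, ptB_val, det3], ?_, ?_, ?_⟩ <;> simp only [b3, a0, ptB_val]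
            · exact indep_yz (by norm_num)
            · exact indep_yz (by norm_num)
            · exact indep_yz (by norm_num)
          · refine ⟨by simp [DetZ, b9, b0, a0, det3], ?_, ?_, ?_⟩ <;> simp only [b9, b0, a0]
            · exact indep_xz (by norm_num)
            · exact indep_xz (by simpa using hx)
            · exact indep_xz (by norm_num)
          · refine ⟨by simp [DetZ, b9, a1, ptB_val, det3], ?_, ?_, ?_⟩ <;> simp only [b9, a1, ptB_val]
            · exact indep_yz (by norm_num)
            · exact indep_yz (by norm_num)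
            · exact indep_yz (by norm_num)
          · refine ⟨by simp [DetZ, b0, b3, a1, det3], ?_, ?_, ?_⟩ <;> simp only [b0, b3, a1]
            · exact indep_xy (by norm_num)
            · exact indep_xy (by norm_num)
            · exact indep_xy (by simpa using hy)
          · refine ⟨by simp only [DetZ, a0, a1, ptB_val, det3]; linarith, ?_, ?_, ?_⟩ <;>
              simp only [a0, a1, ptB_val]
            · exact indep_yz (by norm_num)
            · exact indep_yz (by norm_num)
            · exact indep_yz (by norm_num)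
        · simp only [TGate.Holds, if_true] at hg
          simp only [auxPt, if_false, if_true, one_ne_zero] at a0 a1
          simp only [if_true, List.mem_cons, List.not_mem_nil, or_false] at ht
          rcases ht with rfl | rfl | rfl | rfl | rfl
          · refine ⟨by simp [DetZ, b12, a0, ptB_val, det3], ?_, ?_, ?_⟩ <;> simp only [b12, a0, ptB_val]
            · exact indep_yz (by norm_num)
            · exact indep_yz (by simpa using hy)
            · exact indep_yz (by norm_num)
          · refine ⟨by simp [DetZ, b6, b3, a0, det3], ?_, ?_, ?_⟩ <;> simp only [b6, b3, a0]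
            · exact indep_yz (by norm_num)
            · exact indep_yz (by simpa using hy)
            · exact indep_yz (by norm_num)
          · refine ⟨by simp [DetZ, b9, a1, ptB_val, det3], ?_, ?_, ?_⟩ <;> simp only [b9, a1, ptB_val]
            · exact indep_yz (by norm_num)
            · exact indep_yz (by norm_num)
            · exact indep_yz (by norm_num)
          · refine ⟨by simp [DetZ, b0, b3, a1, det3], ?_, ?_, ?_⟩ <;> simp only [b0, b3, a1]
            · exact indep_xy (by norm_num)
            · exact indep_xy (by norm_num)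
            · exact indep_xy (by simpa using hx)
          · refine ⟨by simp only [DetZ, a0, a1, ptB_val, det3]; linarith, ?_, ?_, ?_⟩ <;>
              simp only [a0, a1, ptB_val]
            · exact indep_yz (by norm_num)
            · exact indep_yz (by simpa using hy)
            · exact indep_yz (by norm_num)
  · intro t ht
    have b0 : ptB v L 0 = (1, 0, 0) := by simp [ptB, basePt]
    have b3 : ptB v L 3 = (0, 1, 0) := by simp [ptB, basePt]
    have b6 : ptB v L 6 = (0, 0, 1) := by simp [ptB, basePt]
    have b9 : ptB v L 9 = (0, 1, 1) := by simp [ptB, basePt]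
    have b1 : ptB v L 1 = (1, 0, 1) := by simp [ptB, hv0]
    rcases List.mem_append.mp ht with ht | ht
    · simp only [baseNeg, List.mem_cons, List.not_mem_nil, or_false] at ht
      rcases ht with rfl | rfl | rfl | rfl | rfl <;> simp [DetZ, b0, b3, b6, b9, b1, det3]
    · obtain ⟨g, hg, ht⟩ := List.mem_flatMap.mp ht
      simp only [gateNeg, List.mem_cons, List.not_mem_nil, or_false] at ht
      rcases ht with rfl | rfl | rfl <;> simp [DetZ, b0, b3, ptB_val, det3]

end Pool.Agent.Work.MP_8c8e41_lc
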