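import Pool.Agent.Work.MP_8c8e41_lc.StageB

/-!
Stage B, soundness.
-/

set_option autoImplicit false

namespace Pool.Agent.Work.MP_8c8e41_lc

lemma det3_comb (u v w : V3) (x1 y1 z1 x2 y2 z2 x3 y3 z3 : ℝ) :
    det3 (x1 • u + y1 • v + z1 • w) (x2 • u + y2 • v + z2 • w) (x3 • u + y3 • v + z3 • w)
      = det3 (x1, y1, z1) (x2, y2, z2) (x3, y3, z3) * det3 u v w := by
  simp only [det3, Prod.smul_fst, Prod.smul_snd, smul_eq_mul, Prod.fst_add, Prod.snd_add]
  ring

/-- change of frame: coordinates -/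
lemma frame1 {p : ℕ → V3} (h0 : ∀ n, p n ≠ 0) (hD : det3 (p 0) (p 3) (p 6) ≠ 0) :
    ∃ q : ℕ → V3, (∀ n, q n ≠ 0) ∧ (∀ t, DetZ p t ↔ DetZ q t) ∧
      q 0 = (1, 0, 0) ∧ q 3 = (0, 1, 0) ∧ q 6 = (0, 0, 1) := by
  have hex : ∀ n, ∃ x y z : ℝ, p n = x • p 0 + y • p 3 + z • p 6 ∧
      x * det3 (p 0) (p 3) (p 6) = det3 (p n) (p 3) (p 6) ∧
      y * det3 (p 0) (p 3) (p 6) = det3 (p 0) (p n) (p 6) ∧
      z * det3 (p 0) (p 3) (p 6) = det3 (p 0) (p 3) (p n) := fun n => exists_coords hD (p n)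
  choose x y z hp hx hy hz using hex
  have one : ∀ a : ℝ, a * det3 (p 0) (p 3) (p 6) = det3 (p 0) (p 3) (p 6) → a = 1 := by
    intro a ha
    exact mul_right_cancel₀ hD (by rw [ha, one_mul])
  have zer : ∀ a : ℝ, a * det3 (p 0) (p 3) (p 6) = 0 → a = 0 := fun a ha =>
    (mul_eq_zero.mp ha).resolve_right hD
  refine ⟨fun n => (x n, y n, z n), ?_, ?_, ?_, ?_, ?_⟩
  · intro n hn
    have h1 : x n = 0 := congrArg (fun a : V3 => a.1) hn
    have h2 : y n = 0 := congrArg (fun a : V3 => a.2.1) hn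
    have h3 : z n = 0 := congrArg (fun a : V3 => a.2.2) hn
    apply h0 n
    rw [hp n, h1, h2, h3]; simp
  · intro t
    simp only [DetZ]
    rw [hp t.1, hp t.2.1, hp t.2.2, det3_comb]
    constructor
    · intro h; exact (mul_eq_zero.mp h).resolve_right hD
    · intro h; rw [h, zero_mul]
  · have h1 := one _ (hx 0)
    have h2 := zer _ ((hy 0).trans (det3_self12 _ _))
    have h3 := zer _ ((hz 0).trans (det3_self13 _ _))
    simp only [h1, h2, h3]
  · have h1 := zer _ ((hx 3).trans (det3_self12 _ _))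
    have h2 := one _ (hy 3)
    have h3 := zer _ ((hz 3).trans (det3_self23 _ _))
    simp only [h1, h2, h3]
  · have h1 := zer _ ((hx 6).trans (det3_self13 _ _))
    have h2 := zer _ ((hy 6).trans (det3_self23 _ _))
    have h3 := one _ (hz 6)
    simp only [h1, h2, h3]

/-- normalised frame -/
lemma frame2 {p : ℕ → V3} (h0 : ∀ n, p n ≠ 0) (hpos : ∀ t ∈ basePos, DetZ p t)
    (hneg : ∀ t ∈ baseNeg, ¬ DetZ p t) :
    ∃ r : ℕ → V3, ∃ c0 c3 e i k : ℝ, (∀ n, r n ≠ 0) ∧ (∀ t, DetZ p t ↔ DetZ r t) ∧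
      c0 ≠ 0 ∧ c3 ≠ 0 ∧ e ≠ 0 ∧ i ≠ 0 ∧ k ≠ 0 ∧
      r 0 = (c0, 0, 0) ∧ r 3 = (0, c3, 0) ∧ r 6 = (0, 0, 1) ∧ r 1 = (e, 0, e) ∧
      r 9 = (0, i, i) ∧ r 12 = (k, -k, 0) := by
  have hD : det3 (p 0) (p 3) (p 6) ≠ 0 := hneg (0, 3, 6) (by simp [baseNeg])
  obtain ⟨q, hq0, hq, q0, q3, q6⟩ := frame1 h0 hD
  have l1 : DetZ q (6, 0, 1) := (hq _).mp (hpos _ (by simp [basePos]))
  have l2 : DetZ q (6, 3, 9) := (hq _).mp (hpos _ (by simp [basePos]))
  have l3 : DetZ q (1, 9, 12) := (hq _).mp (hpos _ (by simp [basePos]))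
  have l4 : DetZ q (0, 3, 12) := (hq _).mp (hpos _ (by simp [basePos]))
  have n1 : ¬ DetZ q (1, 3, 6) := fun h => hneg _ (by simp [baseNeg]) ((hq _).mpr h)
  have n2 : ¬ DetZ q (1, 0, 3) := fun h => hneg _ (by simp [baseNeg]) ((hq _).mpr h)
  have n3 : ¬ DetZ q (9, 0, 6) := fun h => hneg _ (by simp [baseNeg]) ((hq _).mpr h)
  have n4 : ¬ DetZ q (9, 0, 3) := fun h => hneg _ (by simp [baseNeg]) ((hq _).mpr h)
  have q12ne := hq0 12
  rcases hE : q 1 with ⟨e1, e2, e3⟩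
  rcases hI : q 9 with ⟨i1, i2, i3⟩
  rcases hK : q 12 with ⟨k1, k2, k3⟩
  simp only [DetZ, q0, q3, q6, hE, hI, hK, det3] at l1 l2 l3 l4 n1 n2 n3 n4
  have he2 : e2 = 0 := by linarith
  have he1 : e1 ≠ 0 := by rintro rfl; apply n1; ring
  have he3 : e3 ≠ 0 := by rintro rfl; apply n2; ring
  have hi1 : i1 = 0 := by linarith
  have hi2 : i2 ≠ 0 := by rintro rfl; apply n3; ring
  have hi3 : i3 ≠ 0 := by rintro rfl; apply n4; ring
  have hk3 : k3 = 0 := by linarith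
  subst he2 hi1 hk3
  have hkk : e1 * i3 * k2 = - (e3 * i2 * k1) := by linarith
  have hk1 : k1 ≠ 0 := by
    rintro rfl
    have : k2 = 0 := by
      have h1 : e1 * i3 * k2 = 0 := by linarith
      exact (mul_eq_zero.mp h1).resolve_left (mul_ne_zero he1 hi3)
    subst this
    exact q12ne hK
  let a : ℝ := e3 / e1
  let b : ℝ := i3 / i2
  have ha : a ≠ 0 := div_ne_zero he3 he1
  have hb : b ≠ 0 := div_ne_zero hi3 hi2
  refine ⟨fun n => (a * (q n).1, b * (q n).2.1, (q n).2.2), a, b, e3, i3, a * k1, ?_, ?_, ha, hb,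
    he3, hi3, mul_ne_zero ha hk1, ?_, ?_, ?_, ?_, ?_, ?_⟩
  · intro n hn
    have h1 : a * (q n).1 = 0 := congrArg (fun a : V3 => a.1) hn
    have h2 : b * (q n).2.1 = 0 := congrArg (fun a : V3 => a.2.1) hn
    have h3 : (q n).2.2 = 0 := congrArg (fun a : V3 => a.2.2) hn
    apply hq0 n
    have h1' := (mul_eq_zero.mp h1).resolve_left ha
    have h2' := (mul_eq_zero.mp h2).resolve_left hb
    exact Prod.ext h1' (Prod.ext h2' h3)
  · intro t
    rw [hq t]
    simp only [DetZ]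
    have : det3 (a * (q t.1).1, b * (q t.1).2.1, (q t.1).2.2)
        (a * (q t.2.1).1, b * (q t.2.1).2.1, (q t.2.1).2.2)
        (a * (q t.2.2).1, b * (q t.2.2).2.1, (q t.2.2).2.2)
        = (a * b) * det3 (q t.1) (q t.2.1) (q t.2.2) := by
      simp only [det3]; ring
    rw [this]
    constructor
    · intro h; rw [h, mul_zero]
    · intro h; exact (mul_eq_zero.mp h).resolve_left (mul_ne_zero ha hb)
  · simp [q0]
  · simp [q3]
  · simp [q6]
  · simp only [hE, a]; field_simp; simp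
  · simp only [hI, b]; field_simp; simp
  · have : b * k2 = - (a * k1) := by
      simp only [a, b]; field_simp; linarith
    simp [hK, this]

lemma add_sound {c0 c3 i x1 x3 y1 y3 z1 z3 b1 b2 b3 k1 k2 k3 : ℝ}
    (h0 : c0 ≠ 0) (h3 : c3 ≠ 0) (hi : i ≠ 0) (hx : x3 ≠ 0) (hy : y3 ≠ 0) (hz : z3 ≠ 0)
    (hB : (b1, b2, b3) ≠ (0 : V3)) (hK : (k1, k2, k3) ≠ (0 : V3))
    (l1 : det3 (0, c3, 0) (x1, 0, x3) (b1, b2, b3) = 0)
    (l2 : det3 (0, i, i) (c0, 0, 0) (b1, b2, b3) = 0)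
    (l3 : det3 (0, i, i) (y1, 0, y3) (k1, k2, k3) = 0)
    (l4 : det3 (c0, 0, 0) (0, c3, 0) (k1, k2, k3) = 0)
    (l5 : det3 (b1, b2, b3) (k1, k2, k3) (z1, 0, z3) = 0) :
    x1 / x3 + y1 / y3 = z1 / z3 := by
  simp only [det3] at l1 l2 l3 l4 l5
  have e1 : x1 * b3 = x3 * b1 := by
    have : c3 * (x1 * b3 - x3 * b1) = 0 := by linarith
    have := (mul_eq_zero.mp this).resolve_left h3
    linarith
  have e2 : b2 = b3 := by
    have : (i * c0) * (b2 - b3) = 0 := by linarith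
    have := (mul_eq_zero.mp this).resolve_left (mul_ne_zero hi h0)
    linarith
  have e4 : k3 = 0 := by
    have : (c0 * c3) * k3 = 0 := by linarith
    exact (mul_eq_zero.mp this).resolve_left (mul_ne_zero h0 h3)
  subst e4 e2
  have e3 : y3 * k1 = - (y1 * k2) := by
    have : i * (y3 * k1 + y1 * k2) = 0 := by linarith
    have := (mul_eq_zero.mp this).resolve_left hi
    linarith
  have hb : b2 ≠ 0 := by
    rintro rfl
    have : x3 * b1 = 0 := by linarith
    have := (mul_eq_zero.mp this).resolve_left hx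
    subst this
    exact hB rfl
  have hk : k2 ≠ 0 := by
    rintro rfl
    have : y3 * k1 = 0 := by linarith
    have := (mul_eq_zero.mp this).resolve_left hy
    subst this
    exact hK rfl
  have q1 : x1 / x3 = b1 / b2 := by rw [div_eq_div_iff hx hb]; linarith
  have q2 : y1 / y3 = - (k1 / k2) := by
    rw [← neg_div, div_eq_div_iff hy hk]; linarith
  rw [q1, q2]
  field_simp
  linarith

lemma mul_sound {c0 c3 i x1 x3 y1 y3 z1 z3 b1 b2 b3 k k1 k2 k3 : ℝ}
    (h0 : c0 ≠ 0) (h3 : c3 ≠ 0) (hi : i ≠ 0) (hkk : k ≠ 0) (hx : x3 ≠ 0) (hy : y3 ≠ 0) (hz : z3 ≠ 0)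
    (hB : (b1, b2, b3) ≠ (0 : V3)) (hK : (k1, k2, k3) ≠ (0 : V3))
    (l1 : det3 (y1, 0, y3) (k, -k, 0) (b1, b2, b3) = 0)
    (l2 : det3 (0, 0, 1) (0, c3, 0) (b1, b2, b3) = 0)
    (l3 : det3 (0, i, i) (x1, 0, x3) (k1, k2, k3) = 0)
    (l4 : det3 (c0, 0, 0) (0, c3, 0) (k1, k2, k3) = 0)
    (l5 : det3 (b1, b2, b3) (k1, k2, k3) (z1, 0, z3) = 0) :
    (x1 / x3) * (y1 / y3) = z1 / z3 := by
  simp only [det3] at l1 l2 l3 l4 l5
  have e1 : b1 = 0 := by
    have : c3 * b1 = 0 := by linarith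
    exact (mul_eq_zero.mp this).resolve_left h3
  have e4 : k3 = 0 := by
    have : (c0 * c3) * k3 = 0 := by linarith
    exact (mul_eq_zero.mp this).resolve_left (mul_ne_zero h0 h3)
  subst e1 e4
  have e2 : y3 * b2 = y1 * b3 := by
    have : k * (y3 * b2 - y1 * b3) = 0 := by linarith
    have := (mul_eq_zero.mp this).resolve_left hkk
    linarith
  have e3 : x3 * k1 = - (x1 * k2) := by
    have : i * (x3 * k1 + x1 * k2) = 0 := by linarith
    have := (mul_eq_zero.mp this).resolve_left hi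
    linarith
  have hb : b3 ≠ 0 := by
    rintro rfl
    have : y3 * b2 = 0 := by linarith
    have := (mul_eq_zero.mp this).resolve_left hy
    subst this
    exact hB rfl
  have hk : k2 ≠ 0 := by
    rintro rfl
    have : x3 * k1 = 0 := by linarith
    have := (mul_eq_zero.mp this).resolve_left hx
    subst this
    exact hK rfl
  have q1 : y1 / y3 = b2 / b3 := by rw [div_eq_div_iff hy hb]; linarith
  have q2 : x1 / x3 = - (k1 / k2) := by
    rw [← neg_div, div_eq_div_iff hx hk]; linarith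
  rw [q1, q2]
  field_simp
  linarith

theorem stageB_sound {L : List TGate} {p : ℕ → V3} (h0 : ∀ n, p n ≠ 0)
    (hpos : ∀ t ∈ stageBPos L, DetZ p t) (hneg : ∀ t ∈ stageBNeg L, ¬ DetZ p t) :
    ∃ v : ℕ → ℝ, v 0 = 1 ∧ ∀ g ∈ L, g.Holds v := by
  obtain ⟨r, c0, c3, e, i, k, hr0, hr, hc0, hc3, he, hi, hk, r0, r3, r6, r1, r9, r12⟩ :=
    frame2 h0 (fun t ht => hpos t (List.mem_append_left _ ht))
      (fun t ht => hneg t (List.mem_append_left _ ht))
  refine ⟨fun u => (r (valv u)).1 / (r (valv u)).2.2, ?_, ?_⟩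
  · simp [valv, r1, he]
  · intro g hg
    obtain ⟨m, hm, rfl⟩ := List.getElem_of_mem hg
    have hmem : (L[m], m) ∈ L.zipIdx := by
      rw [List.mem_zipIdx_iff_getElem?]
      simp [hm]
    have hp : ∀ s ∈ gatePos L[m] m, DetZ r s := fun s hs =>
      (hr s).mp (hpos s (List.mem_append_right _ (List.mem_flatMap.mpr ⟨_, hmem, hs⟩)))
    have hn : ∀ s ∈ gateNeg L[m], ¬ DetZ r s := fun s hs h =>
      hneg s (List.mem_append_right _ (List.mem_flatMap.mpr ⟨_, hg, hs⟩)) ((hr s).mpr h)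
    generalize L[m] = g at *
    obtain ⟨b, x, y, z⟩ := g
    have axis : ∀ u, DetZ r (6, 0, valv u) → ¬ DetZ r (valv u, 0, 3) →
        ∃ a c : ℝ, c ≠ 0 ∧ r (valv u) = (a, 0, c) := by
      intro u h1 h2
      rcases hu : r (valv u) with ⟨a, b, c⟩
      simp only [DetZ, r0, r3, r6, hu, det3] at h1 h2
      have hb : b = 0 := by
        have : c0 * b = 0 := by linarith
        exact (mul_eq_zero.mp this).resolve_left hc0
      subst hb
      refine ⟨a, c, ?_, rfl⟩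
      rintro rfl
      apply h2; ring
    simp only [gateNeg, List.mem_cons, List.not_mem_nil, or_false, forall_eq_or_imp,
      forall_eq] at hn
    obtain ⟨n1, n2, n3⟩ := hn
    have hp1 : ∀ s ∈ [(6, 0, valv x), (6, 0, valv y), (6, 0, valv z)], DetZ r s := fun s hs =>
      hp s (List.mem_append_left _ hs)
    simp only [List.mem_cons, List.not_mem_nil, or_false, forall_eq_or_imp, forall_eq] at hp1
    obtain ⟨q1, q2, q3⟩ := hp1
    obtain ⟨x1, x3, hx, hX⟩ := axis x q1 n1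
    obtain ⟨y1, y3, hy, hY⟩ := axis y q2 n2
    obtain ⟨z1, z3, hz, hZ⟩ := axis z q3 n3
    have hB := hr0 (auxv m 0)
    have hK := hr0 (auxv m 1)
    rcases hBe : r (auxv m 0) with ⟨b1, b2, b3⟩
    rcases hKe : r (auxv m 1) with ⟨k1, k2, k3⟩
    rw [hBe] at hB
    rw [hKe] at hK
    cases b
    · have hp2 : ∀ s ∈ [(3, valv x, auxv m 0), (9, 0, auxv m 0), (9, valv y, auxv m 1),
          (0, 3, auxv m 1), (auxv m 0, auxv m 1, valv z)], DetZ r s := fun s hs =>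
        hp s (List.mem_append_right _ (by simpa using hs))
      simp only [List.mem_cons, List.not_mem_nil, or_false, forall_eq_or_imp, forall_eq,
        DetZ, r0, r3, r9, hX, hY, hZ, hBe, hKe] at hp2
      obtain ⟨l1, l2, l3, l4, l5⟩ := hp2
      simp only [TGate.Holds, Bool.false_eq_true, if_false, hX, hY, hZ]
      exact add_sound hc0 hc3 hi hx hy hz hB hK l1 l2 l3 l4 l5
    · have hp2 : ∀ s ∈ [(valv y, 12, auxv m 0), (6, 3, auxv m 0), (9, valv x, auxv m 1),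
          (0, 3, auxv m 1), (auxv m 0, auxv m 1, valv z)], DetZ r s := fun s hs =>
        hp s (List.mem_append_right _ (by simpa using hs))
      simp only [List.mem_cons, List.not_mem_nil, or_false, forall_eq_or_imp, forall_eq,
        DetZ, r0, r3, r6, r9, r12, hX, hY, hZ, hBe, hKe] at hp2
      obtain ⟨l1, l2, l3, l4, l5⟩ := hp2
      simp only [TGate.Holds, if_true, hX, hY, hZ]
      exact mul_sound hc0 hc3 hi hk hx hy hz hB hK l1 l2 l3 l4 l5

end Pool.Agent.Work.MP_8c8e41_lc
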