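import Pool.Agent.Work.MP_8c8e41_lc.Geo

/-!
Stage C: every positive triple is replaced by a Desargues configuration.
-/

set_option autoImplicit false

namespace Pool.Agent.Work.MP_8c8e41_lc

/-- triples of variable names -/
abbrev Tri := ℕ × ℕ × ℕ

/-- a triple is collinear under a homogeneous assignment -/
def DetZ (p : ℕ → V3) (t : Tri) : Prop := det3 (p t.1) (p t.2.1) (p t.2.2) = 0

/-- pairwise different points -/
def Indep3 (p : ℕ → V3) (t : Tri) : Prop :=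
  Indep (p t.1) (p t.2.1) ∧ Indep (p t.1) (p t.2.2) ∧ Indep (p t.2.1) (p t.2.2)

/-- name of the old variable `v` -/
def oldv (v : ℕ) : ℕ := 2 * v

/-- name of the `r`-th new variable of the `j`-th configuration (`r < 7`) -/
def newv (j r : ℕ) : ℕ := 14 * j + 2 * r + 1

/-- the nine lines of the configuration of the `j`-th positive triple -/
def cfgPos (t : Tri) (j : ℕ) : List Tri :=
  [(newv j 0, newv j 1, newv j 4), (newv j 0, newv j 2, newv j 5), (newv j 0, newv j 3, newv j 6),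
   (newv j 1, newv j 2, oldv t.1), (newv j 4, newv j 5, oldv t.1),
   (newv j 2, newv j 3, oldv t.2.1), (newv j 5, newv j 6, oldv t.2.1),
   (newv j 1, newv j 3, oldv t.2.2), (newv j 4, newv j 6, oldv t.2.2)]

/-- the nine non-degeneracy conditions of the configuration -/
def cfgNeg (j : ℕ) : List Tri :=
  [(newv j 0, newv j 1, newv j 2), (newv j 0, newv j 2, newv j 3), (newv j 0, newv j 1, newv j 3),
   (newv j 4, newv j 1, newv j 2), (newv j 5, newv j 2, newv j 1), (newv j 6, newv j 3, newv j 1),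
   (newv j 4, newv j 0, newv j 2), (newv j 5, newv j 0, newv j 1), (newv j 6, newv j 0, newv j 1)]

def oldTri (t : Tri) : Tri := (oldv t.1, oldv t.2.1, oldv t.2.2)

/-- positive triples of the output -/
def stageCPos (P : List Tri) : List Tri := P.zipIdx.flatMap fun tj => cfgPos tj.1 tj.2

/-- negative triples of the output -/
def stageCNeg (P N : List Tri) : List Tri :=
  N.map oldTri ++ P.zipIdx.flatMap fun tj => cfgNeg tj.2

theorem stageC_sound {P N : List Tri} {q : ℕ → V3}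
    (hpos : ∀ t ∈ stageCPos P, DetZ q t) (hneg : ∀ t ∈ stageCNeg P N, ¬ DetZ q t) :
    (∀ t ∈ P, DetZ (fun v => q (oldv v)) t) ∧ (∀ t ∈ N, ¬ DetZ (fun v => q (oldv v)) t) := by
  constructor
  · intro t ht
    obtain ⟨j, hj, rfl⟩ := List.getElem_of_mem ht
    have hmem : (P[j], j) ∈ P.zipIdx := by
      rw [List.mem_zipIdx_iff_getElem?]
      simp [hj]
    have hp : ∀ s ∈ cfgPos P[j] j, DetZ q s := fun s hs =>
      hpos s (List.mem_flatMap.mpr ⟨_, hmem, hs⟩)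
    have hn : ∀ s ∈ cfgNeg j, ¬ DetZ q s := fun s hs =>
      hneg s (List.mem_append_right _ (List.mem_flatMap.mpr ⟨_, hmem, hs⟩))
    simp only [cfgPos, cfgNeg, List.mem_cons, List.not_mem_nil, or_false, forall_eq_or_imp,
      forall_eq, DetZ] at hp hn ⊢
    obtain ⟨l1, l2, l3, l4, l5, l6, l7, l8, l9⟩ := hp
    obtain ⟨n1, n2, n3, m1, m2, m3, k1, k2, k3⟩ := hn
    exact desargues_sound l1 l2 l3 l4 l5 l6 l7 l8 l9 n1 n2 n3 m1 m2 m3 k1 k2 k3
  · intro t ht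
    exact hneg (oldTri t) (List.mem_append_left _ (List.mem_map_of_mem ht))

/-- function form of the completeness lemma -/
lemma desargues_fun {p12 p23 p13 : V3} (h : det3 p12 p23 p13 = 0)
    (i1 : Indep p12 p23) (i2 : Indep p12 p13) (i3 : Indep p23 p13) :
    ∃ f : ℕ → V3, (∀ r, f r ≠ 0) ∧
      (det3 (f 0) (f 1) (f 4) = 0 ∧ det3 (f 0) (f 2) (f 5) = 0 ∧ det3 (f 0) (f 3) (f 6) = 0 ∧
       det3 (f 1) (f 2) p12 = 0 ∧ det3 (f 4) (f 5) p12 = 0 ∧
       det3 (f 2) (f 3) p23 = 0 ∧ det3 (f 5) (f 6) p23 = 0 ∧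
       det3 (f 1) (f 3) p13 = 0 ∧ det3 (f 4) (f 6) p13 = 0) ∧
      (det3 (f 0) (f 1) (f 2) ≠ 0 ∧ det3 (f 0) (f 2) (f 3) ≠ 0 ∧ det3 (f 0) (f 1) (f 3) ≠ 0 ∧
       det3 (f 4) (f 1) (f 2) ≠ 0 ∧ det3 (f 5) (f 2) (f 1) ≠ 0 ∧ det3 (f 6) (f 3) (f 1) ≠ 0 ∧
       det3 (f 4) (f 0) (f 2) ≠ 0 ∧ det3 (f 5) (f 0) (f 1) ≠ 0 ∧ det3 (f 6) (f 0) (f 1) ≠ 0) := by
  obtain ⟨o, a1, a2, a3, b1, b2, b3, hp, hn⟩ := desargues_complete h i1 i2 i3
  refine ⟨fun r => match r with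
    | 0 => o | 1 => a1 | 2 => a2 | 3 => a3 | 4 => b1 | 5 => b2 | _ => b3, ?_, hp, hn⟩
  obtain ⟨n1, n2, n3, m1, m2, m3, k1, k2, k3⟩ := hn
  intro r
  match r with
  | 0 => exact (ne_zero_of_det3 n1).1
  | 1 => exact (ne_zero_of_det3 n1).2.1
  | 2 => exact (ne_zero_of_det3 n1).2.2
  | 3 => exact (ne_zero_of_det3 n2).2.2
  | 4 => exact (ne_zero_of_det3 m1).1
  | 5 => exact (ne_zero_of_det3 m2).1
  | (n + 6) => exact (ne_zero_of_det3 m3).1

theorem stageC_complete {P N : List Tri} {p : ℕ → V3} (hp0 : ∀ v, p v ≠ 0)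
    (hpos : ∀ t ∈ P, DetZ p t ∧ Indep3 p t) (hneg : ∀ t ∈ N, ¬ DetZ p t) :
    ∃ q : ℕ → V3, (∀ v, q v ≠ 0) ∧ (∀ t ∈ stageCPos P, DetZ q t) ∧
      (∀ t ∈ stageCNeg P N, ¬ DetZ q t) := by
  classical
  have hex : ∀ j : ℕ, ∃ f : ℕ → V3, (∀ r, f r ≠ 0) ∧ ∀ hj : j < P.length,
      (det3 (f 0) (f 1) (f 4) = 0 ∧ det3 (f 0) (f 2) (f 5) = 0 ∧ det3 (f 0) (f 3) (f 6) = 0 ∧
       det3 (f 1) (f 2) (p P[j].1) = 0 ∧ det3 (f 4) (f 5) (p P[j].1) = 0 ∧
       det3 (f 2) (f 3) (p P[j].2.1) = 0 ∧ det3 (f 5) (f 6) (p P[j].2.1) = 0 ∧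
       det3 (f 1) (f 3) (p P[j].2.2) = 0 ∧ det3 (f 4) (f 6) (p P[j].2.2) = 0) ∧
      (det3 (f 0) (f 1) (f 2) ≠ 0 ∧ det3 (f 0) (f 2) (f 3) ≠ 0 ∧ det3 (f 0) (f 1) (f 3) ≠ 0 ∧
       det3 (f 4) (f 1) (f 2) ≠ 0 ∧ det3 (f 5) (f 2) (f 1) ≠ 0 ∧ det3 (f 6) (f 3) (f 1) ≠ 0 ∧
       det3 (f 4) (f 0) (f 2) ≠ 0 ∧ det3 (f 5) (f 0) (f 1) ≠ 0 ∧ det3 (f 6) (f 0) (f 1) ≠ 0) := by
    intro j
    by_cases hj : j < P.length
    · obtain ⟨hd, h1, h2, h3⟩ := hpos P[j] (List.getElem_mem hj)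
      obtain ⟨f, hf0, hf1, hf2⟩ := desargues_fun hd h1 h2 h3
      exact ⟨f, hf0, fun _ => ⟨hf1, hf2⟩⟩
    · exact ⟨fun _ => (1, 0, 0), fun _ h => by simp at h, fun h => absurd h hj⟩
  choose F hF0 hF using hex
  let q : ℕ → V3 := fun n => if n % 2 = 0 then p (n / 2) else F (n / 14) (n / 2 % 7)
  have hqo : ∀ v, q (oldv v) = p v := by
    intro v
    simp [q, oldv]
  have hqn : ∀ j r, r < 7 → q (newv j r) = F j r := by
    intro j r hr
    have h1 : (14 * j + 2 * r + 1) % 2 = 1 := by omega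
    have h2 : (14 * j + 2 * r + 1) / 14 = j := by omega
    have h3 : (14 * j + 2 * r + 1) / 2 % 7 = r := by omega
    simp only [q, newv, h1, h2, h3, one_ne_zero, if_false]
  refine ⟨q, ?_, ?_, ?_⟩
  · intro v
    simp only [q]
    split
    · exact hp0 _
    · exact hF0 _ _
  · intro t ht
    obtain ⟨⟨s, j⟩, hm, ht⟩ := List.mem_flatMap.mp ht
    rw [List.mem_zipIdx_iff_getElem?] at hm
    simp only at hm ht
    obtain ⟨hj, hs⟩ := List.getElem?_eq_some_iff.mp hm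
    subst hs
    obtain ⟨⟨l1, l2, l3, l4, l5, l6, l7, l8, l9⟩, -⟩ := hF j hj
    simp only [cfgPos, List.mem_cons, List.not_mem_nil, or_false] at ht
    rcases ht with rfl | rfl | rfl | rfl | rfl | rfl | rfl | rfl | rfl <;>
      simp only [DetZ, hqo, hqn _ 0 (by norm_num), hqn _ 1 (by norm_num), hqn _ 2 (by norm_num),
        hqn _ 3 (by norm_num), hqn _ 4 (by norm_num), hqn _ 5 (by norm_num),
        hqn _ 6 (by norm_num)] <;> assumption
  · intro t ht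
    rcases List.mem_append.mp ht with ht | ht
    · obtain ⟨s, hs, rfl⟩ := List.mem_map.mp ht
      simp only [DetZ, oldTri, hqo]
      exact hneg s hs
    · obtain ⟨⟨s, j⟩, hm, ht⟩ := List.mem_flatMap.mp ht
      rw [List.mem_zipIdx_iff_getElem?] at hm
      simp only at hm ht
      obtain ⟨hj, hs⟩ := List.getElem?_eq_some_iff.mp hm
      obtain ⟨-, ⟨l1, l2, l3, l4, l5, l6, l7, l8, l9⟩⟩ := hF j hj
      simp only [cfgNeg, List.mem_cons, List.not_mem_nil, or_false] at ht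
      rcases ht with rfl | rfl | rfl | rfl | rfl | rfl | rfl | rfl | rfl <;>
        simp only [DetZ, hqn _ 0 (by norm_num), hqn _ 1 (by norm_num), hqn _ 2 (by norm_num),
          hqn _ 3 (by norm_num), hqn _ 4 (by norm_num), hqn _ 5 (by norm_num),
          hqn _ 6 (by norm_num)] <;> assumption

end Pool.Agent.Work.MP_8c8e41_lc
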