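import Pool.Agent.Work.MP_8c8e41_lc.StageA

/-!
From homogeneous coordinates to points of `ℝ²`.
-/

set_option autoImplicit false

namespace Pool.Agent.Work.MP_8c8e41_lc

/-- collinearity of the three points of a triple -/
def ColT (p : ℕ → ℝ × ℝ) (t : Tri) : Prop :=
  Collinear ℝ ({p t.1, p t.2.1, p t.2.2} : Set (ℝ × ℝ))

/-- lift to homogeneous coordinates -/
def lift (a : ℝ × ℝ) : V3 := (a.1, a.2, 1)

lemma collinear_iff_det (a b c : ℝ × ℝ) :
    Collinear ℝ ({a, b, c} : Set (ℝ × ℝ)) ↔ det3 (lift a) (lift b) (lift c) = 0 := by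
  obtain ⟨a1, a2⟩ := a
  obtain ⟨b1, b2⟩ := b
  obtain ⟨c1, c2⟩ := c
  constructor
  · intro h
    rw [collinear_iff_of_mem (p₀ := (a1, a2)) (by simp)] at h
    obtain ⟨v, hv⟩ := h
    obtain ⟨r, hr⟩ := hv (b1, b2) (by simp)
    obtain ⟨s, hs⟩ := hv (c1, c2) (by simp)
    simp only [vadd_eq_add, Prod.ext_iff, Prod.fst_add, Prod.snd_add, Prod.smul_fst,
      Prod.smul_snd, smul_eq_mul] at hr hs
    simp only [det3, lift, hr.1, hr.2, hs.1, hs.2]
    ring
  · intro h
    simp only [det3, lift] at h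
    by_cases hab : (a1, a2) = (b1, b2)
    · have : ({(a1, a2), (b1, b2), (c1, c2)} : Set (ℝ × ℝ)) = {(a1, a2), (c1, c2)} := by
        rw [hab]; simp
      rw [this]
      exact collinear_pair ℝ _ _
    · rw [collinear_iff_of_mem (p₀ := (a1, a2)) (by simp)]
      refine ⟨(b1 - a1, b2 - a2), ?_⟩
      intro p hp
      simp only [Set.mem_insert_iff, Set.mem_singleton_iff] at hp
      rcases hp with rfl | rfl | rfl
      · exact ⟨0, by simp⟩
      · exact ⟨1, by simp⟩
      · by_cases h1 : b1 = a1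
        · have h2 : b2 ≠ a2 := by
            intro h2; apply hab; rw [h1, h2]
          have h2' : b2 - a2 ≠ 0 := sub_ne_zero.mpr h2
          refine ⟨(c2 - a2) / (b2 - a2), ?_⟩
          simp only [vadd_eq_add, Prod.ext_iff, Prod.fst_add, Prod.snd_add, Prod.smul_fst,
            Prod.smul_snd, smul_eq_mul]
          constructor
          · subst h1
            have : (c1 - b1) * (b2 - a2) = 0 := by linarith
            have := (mul_eq_zero.mp this).resolve_right h2'
            rw [sub_self, mul_zero]; linarith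
          · field_simp; ring
        · have h1' : b1 - a1 ≠ 0 := sub_ne_zero.mpr h1
          refine ⟨(c1 - a1) / (b1 - a1), ?_⟩
          simp only [vadd_eq_add, Prod.ext_iff, Prod.fst_add, Prod.snd_add, Prod.smul_fst,
            Prod.smul_snd, smul_eq_mul]
          constructor
          · field_simp; ring
          · have : (c1 - a1) * (b2 - a2) = (c2 - a2) * (b1 - a1) := by linarith
            field_simp
            linarith

lemma exists_functional (S : Finset V3) (h : ∀ v ∈ S, v ≠ 0) :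
    ∃ t : ℝ, t ≠ 0 ∧ ∀ v ∈ S, v.1 + t * v.2.1 + t ^ 2 * v.2.2 ≠ 0 := by
  classical
  let P : V3 → Polynomial ℝ := fun v =>
    Polynomial.C v.1 + Polynomial.C v.2.1 * Polynomial.X + Polynomial.C v.2.2 * Polynomial.X ^ 2
  have hP : ∀ v ∈ S, P v ≠ 0 := by
    intro v hv h0
    apply h v hv
    have c0 : (P v).coeff 0 = 0 := by rw [h0]; simp
    have c1 : (P v).coeff 1 = 0 := by rw [h0]; simp
    have c2 : (P v).coeff 2 = 0 := by rw [h0]; simp
    simp [P, Polynomial.coeff_X, Polynomial.coeff_X_pow, Polynomial.coeff_C] at c0 c1 c2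
    exact Prod.ext c0 (Prod.ext c1 c2)
  let R : Finset ℝ := insert 0 (S.biUnion fun v => (P v).roots.toFinset)
  obtain ⟨t, ht⟩ := Infinite.exists_notMem_finset R
  refine ⟨t, ?_, ?_⟩
  · rintro rfl; apply ht; simp [R]
  · intro v hv h0
    apply ht
    apply Finset.mem_insert_of_mem
    refine Finset.mem_biUnion.mpr ⟨v, hv, ?_⟩
    rw [Multiset.mem_toFinset, Polynomial.mem_roots (hP v hv)]
    simp only [P, Polynomial.IsRoot, Polynomial.eval_add, Polynomial.eval_mul, Polynomial.eval_C,
      Polynomial.eval_X, Polynomial.eval_pow]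
    linarith

/-- all variables of a list of triples -/
def vars (P : List Tri) : Finset ℕ := P.toFinset.biUnion fun t => {t.1, t.2.1, t.2.2}

lemma mem_vars {P : List Tri} {t : Tri} (h : t ∈ P) :
    t.1 ∈ vars P ∧ t.2.1 ∈ vars P ∧ t.2.2 ∈ vars P := by
  refine ⟨?_, ?_, ?_⟩ <;>
    exact Finset.mem_biUnion.mpr ⟨t, by simpa using h, by simp⟩

theorem transfer (P N : List Tri) :
    (∃ q : ℕ → V3, (∀ n, q n ≠ 0) ∧ (∀ t ∈ P, DetZ q t) ∧ (∀ t ∈ N, ¬ DetZ q t)) ↔
    (∃ p : ℕ → ℝ × ℝ, (∀ t ∈ P, ColT p t) ∧ (∀ t ∈ N, ¬ ColT p t)) := by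
  constructor
  · rintro ⟨q, hq, hP, hN⟩
    obtain ⟨s, hs0, hs⟩ := exists_functional ((vars (P ++ N)).image q) (by
      intro v hv
      obtain ⟨n, -, rfl⟩ := Finset.mem_image.mp hv
      exact hq n)
    let f : ℕ → ℝ := fun n => (q n).1 + s * (q n).2.1 + s ^ 2 * (q n).2.2
    have hf : ∀ n ∈ vars (P ++ N), f n ≠ 0 := fun n hn =>
      hs _ (Finset.mem_image_of_mem _ hn)
    let p : ℕ → ℝ × ℝ := fun n => ((q n).1 / f n, (q n).2.1 / f n)
    have key : ∀ t ∈ P ++ N, (ColT p t ↔ DetZ q t) := by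
      intro t ht
      obtain ⟨h1, h2, h3⟩ := mem_vars ht
      have f1 := hf _ h1
      have f2 := hf _ h2
      have f3 := hf _ h3
      rw [ColT, collinear_iff_det]
      have e : f t.1 * f t.2.1 * f t.2.2 * det3 (lift (p t.1)) (lift (p t.2.1)) (lift (p t.2.2))
          = s ^ 2 * det3 (q t.1) (q t.2.1) (q t.2.2) := by
        have g1 : f t.1 * (p t.1).1 = (q t.1).1 := by simp only [p]; field_simp
        have g1' : f t.1 * (p t.1).2 = (q t.1).2.1 := by simp only [p]; field_simp
        have g2 : f t.2.1 * (p t.2.1).1 = (q t.2.1).1 := by simp only [p]; field_simp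
        have g2' : f t.2.1 * (p t.2.1).2 = (q t.2.1).2.1 := by simp only [p]; field_simp
        have g3 : f t.2.2 * (p t.2.2).1 = (q t.2.2).1 := by simp only [p]; field_simp
        have g3' : f t.2.2 * (p t.2.2).2 = (q t.2.2).2.1 := by simp only [p]; field_simp
        have : f t.1 * f t.2.1 * f t.2.2 * det3 (lift (p t.1)) (lift (p t.2.1)) (lift (p t.2.2))
            = det3 (f t.1 * (p t.1).1, f t.1 * (p t.1).2, f t.1)
                (f t.2.1 * (p t.2.1).1, f t.2.1 * (p t.2.1).2, f t.2.1)
                (f t.2.2 * (p t.2.2).1, f t.2.2 * (p t.2.2).2, f t.2.2) := by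
          simp only [det3, lift]; ring
        rw [this, g1, g1', g2, g2', g3, g3']
        simp only [det3, f]
        ring
      rw [DetZ]
      constructor
      · intro h
        rw [h, mul_zero] at e
        exact (mul_eq_zero.mp e.symm).resolve_left (pow_ne_zero 2 hs0)
      · intro h
        rw [h, mul_zero] at e
        exact (mul_eq_zero.mp e).resolve_left (mul_ne_zero (mul_ne_zero f1 f2) f3)
    exact ⟨p, fun t ht => (key t (List.mem_append_left _ ht)).mpr (hP t ht),
      fun t ht h => hN t ht ((key t (List.mem_append_right _ ht)).mp h)⟩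
  · rintro ⟨p, hP, hN⟩
    refine ⟨fun n => lift (p n), ?_, ?_, ?_⟩
    · intro n hn
      have : (1 : ℝ) = 0 := congrArg (fun a : V3 => a.2.2) hn
      exact one_ne_zero this
    · intro t ht
      exact (collinear_iff_det _ _ _).mp (hP t ht)
    · intro t ht h
      exact hN t ht ((collinear_iff_det _ _ _).mpr h)

/-- the positive triples (groups) produced from a list of source gates -/
def finalPos (L : List SGate) : List Tri := stageCPos (stageBPos (stageA L))

/-- the negative atoms produced from a list of source gates -/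
def finalNeg (L : List SGate) : List Tri :=
  stageCNeg (stageBPos (stageA L)) (stageBNeg (stageA L))

/-- **Correctness of the reduction.** -/
theorem final_correct (L : List SGate) :
    (∃ x : ℕ → ℝ, ∀ g ∈ L, g.Holds x) ↔
    (∃ p : ℕ → ℝ × ℝ, (∀ t ∈ finalPos L, ColT p t) ∧ (∀ t ∈ finalNeg L, ¬ ColT p t)) := by
  rw [← transfer]
  constructor
  · rintro ⟨x, hx⟩
    obtain ⟨p, h0, h1, h2⟩ := stageAB_complete hx
    exact stageC_complete h0 h1 h2
  · rintro ⟨q, h0, h1, h2⟩
    obtain ⟨h3, h4⟩ := stageC_sound h1 h2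
    exact stageAB_sound (fun n => h0 _) h3 h4

end Pool.Agent.Work.MP_8c8e41_lc
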